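import Pool.Agent.H.MP_a7cd38_co.RG.Reg

/-!
# MP_a7cd38_co, RG/Ab: solvable groups

`exists_ab`: the last nontrivial group of the derived series of `R` (as a subgroup of the permutations).
-/

namespace Pool.MP_a7cd38_co.RG

variable {n : ℕ}

theorem exists_ab (R : Subgroup (Equiv.Perm (Fin n))) (hS : IsSolvable R) (hR : R ≠ ⊥) :
    ∃ N : Subgroup (Equiv.Perm (Fin n)), N ≤ R ∧ Nm R N ∧ (∀ x ∈ N, ∀ y ∈ N, x * y = y * x) ∧
      N ≠ ⊥ := by
  classical
  have hex : ∃ k, derivedSeries R k = ⊥ := hS.solvable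
  have hk := Nat.find_spec hex
  have hk1 : Nat.find hex ≠ 0 := by
    intro h0
    rw [h0, derivedSeries_zero] at hk
    apply hR
    rw [Subgroup.eq_bot_iff_forall]
    intro x hx
    have h2 : (⟨x, hx⟩ : R) ∈ (⊤ : Subgroup R) := Subgroup.mem_top _
    rw [hk, Subgroup.mem_bot] at h2
    exact congrArg Subtype.val h2
  obtain ⟨j, hj⟩ := Nat.exists_eq_succ_of_ne_zero hk1
  have hD : derivedSeries R j ≠ ⊥ := Nat.find_min hex (by omega)
  rw [hj, Nat.succ_eq_add_one, derivedSeries_succ,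
    Subgroup.commutator_eq_bot_iff_le_centralizer] at hk
  refine ⟨(derivedSeries R j).map R.subtype, Subgroup.map_subtype_le _, ?_, ?_, ?_⟩
  · rintro g hg _ ⟨d, hd, rfl⟩
    exact ⟨(⟨g, hg⟩ : R) * d * (⟨g, hg⟩ : R)⁻¹,
      (derivedSeries_normal R j).conj_mem d hd ⟨g, hg⟩, rfl⟩
  · rintro _ ⟨d, hd, rfl⟩ _ ⟨e, he, rfl⟩
    have h := Subgroup.mem_centralizer_iff.1 (hk hd) e he
    have h2 := congrArg R.subtype h
    rw [map_mul, map_mul] at h2
    exact h2.symm
  · intro h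
    exact hD ((Subgroup.map_eq_bot_iff_of_injective _ R.subtype_injective).1 h)

end Pool.MP_a7cd38_co.RG
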