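import Pool.Agent.H.MP_a7cd38_co.RG.Df

/-!
# MP_a7cd38_co, RG/Blk: the blocks of the row group are trivial; signs

* `row_pr`: let `B` be a block with `c ≠ c'` in `B`. The row `0` and the column `c'`: there is a row `j` with `L j c' = L 0 c` (the column `c'` contains each symbol: `hlat`,
  finiteness), and `j ≠ 0` because the row `0` is injective. `g = (L j)⁻¹ * L 0` maps `c` to `c'`, so `g '' B` meets `B`, `g '' B = B`. But `g` is a
  full cycle, so `B` is everything (`Equiv.Perm.IsCycle.sameCycle`, `B` is closed under all powers of `g`).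
* `row_even`: for three rows `σ_02 = σ_12 * σ_01`, each of sign `-1` if `n` is even (`Equiv.Perm.IsCycle.sign`): contradiction, so `n ≤ 2`.
-/

namespace Pool.MP_a7cd38_co.RG

variable {n : ℕ}

theorem row_pr (hn : 2 ≤ n) (L : Fin n → Equiv.Perm (Fin n))
    (hlat : ∀ c : Fin n, Function.Injective (fun r : Fin n => L r c)) (hrow : RowHam L) :
    Pr (RowGrp L) := by
  intro B hB
  by_cases hsub : B.Subsingleton
  · exact Or.inl hsub
  right
  obtain ⟨c, hc, c', hc', hne⟩ := Set.not_subsingleton_iff.1 hsub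
  obtain ⟨z, hz⟩ : ∃ z : Fin n, z = ⟨0, by omega⟩ := ⟨_, rfl⟩
  obtain ⟨j, hj⟩ := (Finite.injective_iff_surjective.1 (hlat c')) (L z c)
  have hj' : L j c' = L z c := hj
  have hjz : z ≠ j := by
    rintro rfl
    exact hne ((L z).injective hj').symm
  obtain ⟨hcyc, hcard⟩ := hrow z j hjz
  obtain ⟨g, hg⟩ : ∃ g : Equiv.Perm (Fin n), g = (L j)⁻¹ * L z := ⟨_, rfl⟩
  rw [← hg] at hcyc hcard
  have hgc : g c = c' := by
    rw [hg, Equiv.Perm.mul_apply, ← hj']
    exact (L j).symm_apply_apply c'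
  have hgG : g ∈ RowGrp L := Subgroup.subset_closure ⟨z, j, hg⟩
  have hgB : g '' B = B := by
    rcases hB g hgG with h | h
    · exact h
    · exact absurd hc' (Set.disjoint_left.1 h ⟨c, hc, hgc⟩)
  have hpow : ∀ k : ℕ, (g ^ k) c ∈ B := by
    intro k
    induction k with
    | zero => exact hc
    | succ k ih =>
      rw [pow_succ', Equiv.Perm.mul_apply, ← hgB]
      exact ⟨_, ih, rfl⟩
  have hsupp : ∀ x, g x ≠ x := by
    intro x
    have h1 : g.support = Finset.univ := by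
      rw [← Finset.card_eq_iff_eq_univ, hcard, Fintype.card_fin]
    have h2 : x ∈ g.support := by
      rw [h1]
      exact Finset.mem_univ x
    exact Equiv.Perm.mem_support.1 h2
  refine Set.eq_univ_of_forall fun y => ?_
  obtain ⟨i, hi⟩ := hcyc.exists_pow_eq (hsupp c) (hsupp y)
  rw [← hi]
  exact hpow i

theorem row_even (hn : 2 ≤ n) (L : Fin n → Equiv.Perm (Fin n)) (hrow : RowHam L)
    (he : Even n) : n = 2 := by
  by_contra hne
  have h3 : 3 ≤ n := by omega
  obtain ⟨x, hx⟩ : ∃ x : Fin n, x = ⟨0, by omega⟩ := ⟨_, rfl⟩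
  obtain ⟨y, hy⟩ : ∃ y : Fin n, y = ⟨1, by omega⟩ := ⟨_, rfl⟩
  obtain ⟨z, hz⟩ : ∃ z : Fin n, z = ⟨2, by omega⟩ := ⟨_, rfl⟩
  have hxy : x ≠ y := by
    rw [hx, hy]
    intro h
    exact absurd (Fin.mk.inj_iff.1 h) (by norm_num)
  have hyz : y ≠ z := by
    rw [hy, hz]
    intro h
    exact absurd (Fin.mk.inj_iff.1 h) (by norm_num)
  have hxz : x ≠ z := by
    rw [hx, hz]
    intro h
    exact absurd (Fin.mk.inj_iff.1 h) (by norm_num)
  have hsign : ∀ i j : Fin n, i ≠ j → Equiv.Perm.sign ((L j)⁻¹ * L i) = -1 := by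
    intro i j hij
    obtain ⟨h1, h2⟩ := hrow i j hij
    rw [h1.sign, h2, he.neg_one_pow]
  have h4 : (L z)⁻¹ * L x = ((L z)⁻¹ * L y) * ((L y)⁻¹ * L x) := by group
  have h5 := hsign x z hxz
  rw [h4, Equiv.Perm.sign_mul, hsign x y hxy, hsign y z hyz] at h5
  exact absurd h5 (by decide)

end Pool.MP_a7cd38_co.RG
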