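import Pool.Agent.H.MP_a7cd38_co.RG.Orb

/-!
# MP_a7cd38_co, RG/Cou: counting differences; double transitivity

Let `T = ob G x₀`, `x₀ ≠ 0`, `P = Ker n p`, `a = #(T ∩ P)`, `b = #(T \ P)`, `N z` = number of the pairs `(t, t')` in `T × T` with `t - t' = z`.
* `nd_mem`: for `z ∈ P`, `z ≠ 0`: `N z = b + #{pairs in (T ∩ P) × (T ∩ P) with difference z}`, because for `t ∈ T \ P` also `t - z ∈ T \ P` (`cst`), and `t ∈ P` iff `t - z ∈ P`.
* `nd_all`: `∑ z ≠ 0, N z = (a + b) (a + b - 1)`; `nd_ker`: `∑ z ∈ P, z ≠ 0, N z = (p - 1) b + a (a - 1)`.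
-/

namespace Pool.MP_a7cd38_co.RG

open Finset

variable {n : ℕ} {G : Subgroup (Equiv.Perm (ZMod n))}

/-- The number of the pairs with a given difference. -/
def nd [NeZero n] (T : Finset (ZMod n)) (z : ZMod n) : ℕ := #{q ∈ T ×ˢ T | q.1 - q.2 = z}

private theorem Cou_sum [NeZero n] (T Z : Finset (ZMod n)) (h0 : 0 ∈ Z)
    (hZ : ∀ t ∈ T, ∀ t' ∈ T, t - t' ∈ Z) :
    ∑ z ∈ Z.erase 0, nd T z + #T = #T * #T := by
  have h1 : nd T 0 = #T := by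
    unfold nd
    refine Finset.card_bij' (fun q _ => q.1) (fun t _ => (t, t)) ?_ ?_ ?_ ?_
    · intro q hq
      exact (Finset.mem_product.1 (Finset.mem_filter.1 hq).1).1
    · intro t ht
      exact Finset.mem_filter.2 ⟨Finset.mem_product.2 ⟨ht, ht⟩, sub_self t⟩
    · intro q hq
      have h2 : q.1 - q.2 = 0 := (Finset.mem_filter.1 hq).2
      have h3 : q.1 = q.2 := sub_eq_zero.1 h2
      exact Prod.ext rfl h3
    · intro t ht
      rfl
  have h2 : #(T ×ˢ T) = ∑ z ∈ Z, nd T z := by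
    refine Finset.card_eq_sum_card_fiberwise fun q hq => ?_
    have h3 := Finset.mem_product.1 hq
    exact hZ _ h3.1 _ h3.2
  rw [Finset.card_product] at h2
  rw [h2, ← Finset.sum_erase_add Z (nd T) h0, h1]

theorem nd_sum [NeZero n] (T : Finset (ZMod n)) :
    ∑ z ∈ univ.erase 0, nd T z + #T = #T * #T :=
  Cou_sum T univ (Finset.mem_univ _) fun _ _ _ _ => Finset.mem_univ _

theorem nd_mem [NeZero n] (hP : Pr G) (hT : Tr G) {p : ℕ} (hp : p.Prime) (hpn : p ∣ n)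
    (x₀ : ZMod n) {z : ZMod n} (hz : z ∈ Ker n p) :
    nd (ob G x₀) z = #(ob G x₀ \ Ker n p) + nd (ob G x₀ ∩ Ker n p) z := by
  have hz0 : (p : ZMod n) * z = 0 := mem_Ker.1 hz
  have h1 := Finset.card_filter_add_card_filter_not
    (s := {q ∈ ob G x₀ ×ˢ ob G x₀ | q.1 - q.2 = z}) (fun q => q.2 ∉ Ker n p)
  have h2 : #{q ∈ {q ∈ ob G x₀ ×ˢ ob G x₀ | q.1 - q.2 = z} | q.2 ∉ Ker n p} =
      #(ob G x₀ \ Ker n p) := by
    refine Finset.card_bij' (fun q _ => q.2) (fun t _ => (t + z, t)) ?_ ?_ ?_ ?_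
    · intro q hq
      obtain ⟨h3, h4⟩ := Finset.mem_filter.1 hq
      exact Finset.mem_sdiff.2 ⟨(Finset.mem_product.1 (Finset.mem_filter.1 h3).1).2, h4⟩
    · intro t ht
      obtain ⟨h3, h4⟩ := Finset.mem_sdiff.1 ht
      refine Finset.mem_filter.2 ⟨Finset.mem_filter.2 ⟨Finset.mem_product.2 ⟨?_, h3⟩, ?_⟩, h4⟩
      · exact cst hP hp hpn (ob_iv hT x₀) h3 (fun h5 => h4 (mem_Ker.2 h5)) hz0
      · exact add_sub_cancel_left t z
    · intro q hq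
      obtain ⟨h3, h4⟩ := Finset.mem_filter.1 hq
      have h5 : q.1 - q.2 = z := (Finset.mem_filter.1 h3).2
      refine Prod.ext ?_ rfl
      show q.2 + z = q.1
      rw [← h5]
      ring
    · intro t ht
      rfl
  have h3 : {q ∈ {q ∈ ob G x₀ ×ˢ ob G x₀ | q.1 - q.2 = z} | ¬ q.2 ∉ Ker n p} =
      {q ∈ (ob G x₀ ∩ Ker n p) ×ˢ (ob G x₀ ∩ Ker n p) | q.1 - q.2 = z} := by
    ext q
    simp only [Finset.mem_filter, Finset.mem_product, Finset.mem_inter, not_not]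
    constructor
    · rintro ⟨⟨⟨h4, h5⟩, h6⟩, h7⟩
      refine ⟨⟨⟨h4, ?_⟩, h5, h7⟩, h6⟩
      have h8 : q.1 = q.2 + z := by
        rw [← h6]
        ring
      rw [h8]
      refine mem_Ker.2 ?_
      rw [mul_add, mem_Ker.1 h7, hz0, add_zero]
    · rintro ⟨⟨⟨h4, h5⟩, h6, h7⟩, h8⟩
      exact ⟨⟨⟨h4, h6⟩, h8⟩, h7⟩
  rw [h2, h3] at h1
  exact h1.symm

theorem nd_ker [NeZero n] (hP : Pr G) (hT : Tr G) {p : ℕ} (hp : p.Prime) (hpn : p ∣ n)
    (x₀ : ZMod n) :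
    ∑ z ∈ (Ker n p).erase 0, nd (ob G x₀) z + #(ob G x₀ ∩ Ker n p) =
      (p - 1) * #(ob G x₀ \ Ker n p) + #(ob G x₀ ∩ Ker n p) * #(ob G x₀ ∩ Ker n p) := by
  have h0 : (0 : ZMod n) ∈ Ker n p := mem_Ker.2 (mul_zero _)
  have h1 : #((Ker n p).erase 0) = p - 1 := by
    rw [Finset.card_erase_of_mem h0]
    exact congrArg (fun k => k - 1) (card_ker hp hpn)
  have h2 : ∑ z ∈ (Ker n p).erase 0, nd (ob G x₀) z =
      (p - 1) * #(ob G x₀ \ Ker n p) + ∑ z ∈ (Ker n p).erase 0, nd (ob G x₀ ∩ Ker n p) z := by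
    rw [Finset.sum_congr rfl fun z hz => nd_mem hP hT hp hpn x₀ (Finset.mem_of_mem_erase hz),
      Finset.sum_add_distrib, Finset.sum_const, h1, smul_eq_mul]
  have h3 := Cou_sum (ob G x₀ ∩ Ker n p) (Ker n p) h0 fun t ht t' ht' => by
    refine mem_Ker.2 ?_
    rw [mul_sub, mem_Ker.1 (Finset.mem_inter.1 ht).2, mem_Ker.1 (Finset.mem_inter.1 ht').2,
      sub_zero]
  rw [h2, add_assoc, h3]

end Pool.MP_a7cd38_co.RG
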