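import Pool.Agent.H.MP_a7cd38_co.RG.Orc
import Pool.Agent.H.MP_a7cd38_co.RG.Cou

/-!
# MP_a7cd38_co, RG/Cow: double transitivity

Let `T = ob G x₀`, `x₀ ≠ 0`, `P = Ker n p`, `a = #(T ∩ P)`, `b = #(T \ P)`, `N z = nd T z`.
* `nd_swap`: `a * ∑ z ≠ 0, N z = (a + b) * ∑ w ∈ P, w ≠ 0, N w`: count `N z` over the pairs `z ≠ 0`, `w ∈ P ∩ ob G z` in two ways (`w ∈ ob G z` iff `z ∈ ob G w`; `N z = N w`; `ob_card`).
* `ker_sub`: so `a b = (p - 1) b`, `b ≠ 0`, `a = p - 1`, `T` contains all nonzero elements of `P` (`card_ker`).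
* `one_orbit`: so any two orbits of nonzero elements have a common element.
* `dbl_zmod`: for `a ≠ b`, `c ≠ d` take `h ∈ G`, `h 0 = 0`, `h (b - a) = d - c` and `g = (· + c) ∘ h ∘ (· - a)`.
-/

namespace Pool.MP_a7cd38_co.RG

open Finset

variable {n : ℕ} {G : Subgroup (Equiv.Perm (ZMod n))}

private theorem Cow_mem [NeZero n] {z w : ZMod n} : w ∈ ob G z ↔ z ∈ ob G w := by
  constructor
  · intro h
    rw [ob_eq h]
    exact ob_self z
  · intro h
    rw [ob_eq h]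
    exact ob_self w

private theorem Cow_nd [NeZero n] (hT : Tr G) {x₀ z w : ZMod n} (h : w ∈ ob G z) :
    nd (ob G x₀) w = nd (ob G x₀) z := by
  obtain ⟨g, hg, h0, hz⟩ := mem_ob.1 h
  rw [← hz]
  exact iv_const (f := nd (ob G x₀)) (iv_diff (ob_iv hT x₀)) hg h0 z

theorem nd_swap [NeZero n] (hP : Pr G) (hT : Tr G) {p : ℕ} (hp : p.Prime) (hpn : p ∣ n)
    {x₀ : ZMod n} (hx : x₀ ≠ 0) :
    #(ob G x₀ ∩ Ker n p) * ∑ z ∈ univ.erase 0, nd (ob G x₀) z =
      #(ob G x₀) * ∑ z ∈ (Ker n p).erase 0, nd (ob G x₀) z := by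
  classical
  have h1 : ∑ z ∈ univ.erase 0, ∑ w ∈ (Ker n p).erase 0,
      (if w ∈ ob G z then nd (ob G x₀) z else 0) =
      #(ob G x₀ ∩ Ker n p) * ∑ z ∈ univ.erase 0, nd (ob G x₀) z := by
    rw [Finset.mul_sum]
    refine Finset.sum_congr rfl fun z hz => ?_
    have hz0 : z ≠ 0 := (Finset.mem_erase.1 hz).1
    rw [← Finset.sum_filter, Finset.sum_const, smul_eq_mul]
    congr 1
    rw [← (ob_card hP hT hp hpn hz0 hx).2]
    congr 1
    ext w
    simp only [Finset.mem_filter, Finset.mem_erase, Finset.mem_inter]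
    constructor
    · rintro ⟨⟨_, h2⟩, h3⟩
      exact ⟨h3, h2⟩
    · rintro ⟨h2, h3⟩
      exact ⟨⟨ob_ne hz0 h2, h3⟩, h2⟩
  have h2 : ∑ w ∈ (Ker n p).erase 0, ∑ z ∈ univ.erase 0,
      (if w ∈ ob G z then nd (ob G x₀) z else 0) =
      #(ob G x₀) * ∑ z ∈ (Ker n p).erase 0, nd (ob G x₀) z := by
    rw [Finset.mul_sum]
    refine Finset.sum_congr rfl fun w hw => ?_
    have hw0 : w ≠ 0 := (Finset.mem_erase.1 hw).1
    rw [← Finset.sum_filter]
    have h3 : ∀ z ∈ (univ.erase (0 : ZMod n)).filter (fun z => w ∈ ob G z),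
        nd (ob G x₀) z = nd (ob G x₀) w := fun z hz => (Cow_nd hT (Finset.mem_filter.1 hz).2).symm
    rw [Finset.sum_congr rfl h3, Finset.sum_const, smul_eq_mul]
    congr 1
    rw [← (ob_card hP hT hp hpn hw0 hx).1]
    congr 1
    ext z
    simp only [Finset.mem_filter, Finset.mem_erase, Finset.mem_univ, and_true]
    constructor
    · rintro ⟨_, h4⟩
      exact Cow_mem.1 h4
    · intro h4
      exact ⟨ob_ne hw0 h4, Cow_mem.2 h4⟩
  rw [← h1, ← h2, Finset.sum_comm]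

theorem ker_sub [NeZero n] (hP : Pr G) (hT : Tr G) {p : ℕ} (hp : p.Prime) (hpn : p ∣ n)
    (hne : p ≠ n) {x₀ : ZMod n} (hx : x₀ ≠ 0) : (Ker n p).erase 0 ⊆ ob G x₀ := by
  classical
  have h1 := nd_sum (ob G x₀)
  have h2 := nd_ker hP hT hp hpn x₀
  have h3 := nd_swap hP hT hp hpn hx
  have h4 : #(ob G x₀ \ Ker n p) + #(ob G x₀ ∩ Ker n p) = #(ob G x₀) :=
    Finset.card_sdiff_add_card_inter _ _
  have h5 : 0 < #(ob G x₀) := Finset.card_pos.2 ⟨x₀, ob_self x₀⟩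
  have h6 : 0 < #(ob G x₀ \ Ker n p) := by
    obtain ⟨y, hy, hy'⟩ := ob_not_sub hP hT hp hpn hne hx
    exact Finset.card_pos.2 ⟨y, Finset.mem_sdiff.2 ⟨hy, hy'⟩⟩
  obtain ⟨S₁, hS₁⟩ : ∃ S, S = ∑ z ∈ univ.erase 0, nd (ob G x₀) z := ⟨_, rfl⟩
  obtain ⟨S₂, hS₂⟩ : ∃ S, S = ∑ z ∈ (Ker n p).erase 0, nd (ob G x₀) z := ⟨_, rfl⟩
  obtain ⟨a, ha⟩ : ∃ a, a = #(ob G x₀ ∩ Ker n p) := ⟨_, rfl⟩
  obtain ⟨b, hb⟩ : ∃ b, b = #(ob G x₀ \ Ker n p) := ⟨_, rfl⟩
  obtain ⟨t, ht⟩ : ∃ t, t = #(ob G x₀) := ⟨_, rfl⟩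
  rw [← hS₁, ← ht] at h1
  rw [← hS₂, ← ha, ← hb] at h2
  rw [← hS₁, ← hS₂, ← ha, ← ht] at h3
  rw [← ha, ← hb, ← ht] at h4
  rw [← ht] at h5
  rw [← hb] at h6
  obtain ⟨q, hq⟩ : ∃ q, q = p - 1 := ⟨_, rfl⟩
  rw [← hq] at h2
  have h7 : a = q := by
    have k1 : (S₁ : ℤ) + t = t * t := by exact_mod_cast h1
    have k2 : (S₂ : ℤ) + a = q * b + a * a := by exact_mod_cast h2
    have k3 : (a : ℤ) * S₁ = t * S₂ := by exact_mod_cast h3
    have k4 : (b : ℤ) + a = t := by exact_mod_cast h4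
    have k5 : (t : ℤ) ≠ 0 := by exact_mod_cast h5.ne'
    have k6 : (b : ℤ) ≠ 0 := by exact_mod_cast h6.ne'
    have k7 : (t : ℤ) * (b * (a - q)) = 0 := by
      have e1 : (S₁ : ℤ) = t * t - t := by linear_combination k1
      have e2 : (S₂ : ℤ) = q * b + a * a - a := by linear_combination k2
      rw [e1, e2] at k3
      have e3 : (b : ℤ) = t - a := by linear_combination k4
      linear_combination k3 + (t * a) * e3
    have k8 : (a : ℤ) - q = 0 := by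
      rcases mul_eq_zero.1 k7 with h | h
      · exact absurd h k5
      · rcases mul_eq_zero.1 h with h | h
        · exact absurd h k6
        · exact h
    have k9 : (a : ℤ) = q := by linear_combination k8
    exact_mod_cast k9
  have h8 : ob G x₀ ∩ Ker n p ⊆ (Ker n p).erase 0 := by
    intro z hz
    obtain ⟨hz1, hz2⟩ := Finset.mem_inter.1 hz
    exact Finset.mem_erase.2 ⟨ob_ne hx hz1, hz2⟩
  have h9 : (0 : ZMod n) ∈ Ker n p := mem_Ker.2 (mul_zero _)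
  have h10 : #((Ker n p).erase 0) = p - 1 := by
    rw [Finset.card_erase_of_mem h9]
    congr 1
    exact card_ker hp hpn
  have h11 : ob G x₀ ∩ Ker n p = (Ker n p).erase 0 := by
    refine Finset.eq_of_subset_of_card_le h8 ?_
    rw [h10, ← ha, h7, hq]
  rw [← h11]
  exact Finset.inter_subset_left

theorem one_orbit [NeZero n] (hP : Pr G) (hT : Tr G) (hn : ¬ n.Prime) {x x' : ZMod n}
    (hx : x ≠ 0) (hx' : x' ≠ 0) : x' ∈ ob G x := by
  classical
  have hn1 : n ≠ 1 := by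
    intro h
    subst h
    exact hx (Subsingleton.elim _ _)
  have hp := Nat.minFac_prime hn1
  have hpn := Nat.minFac_dvd n
  have hne : n.minFac ≠ n := by
    intro h
    rw [h] at hp
    exact hn hp
  have h9 : (0 : ZMod n) ∈ Ker n n.minFac := mem_Ker.2 (mul_zero _)
  have h10 : #((Ker n n.minFac).erase 0) = n.minFac - 1 := by
    rw [Finset.card_erase_of_mem h9]
    congr 1
    exact card_ker hp hpn
  have h11 : 0 < #((Ker n n.minFac).erase 0) := by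
    rw [h10]
    have := hp.two_le
    omega
  obtain ⟨y, hy⟩ := Finset.card_pos.1 h11
  have h1 := ker_sub hP hT hp hpn hne hx hy
  have h2 := ker_sub hP hT hp hpn hne hx' hy
  rw [← ob_eq h1]
  exact Cow_mem.1 h2

/-- Schur's theorem. -/
theorem dbl_zmod [NeZero n] (hP : Pr G) (hT : Tr G) (hn : ¬ n.Prime) : Dbl G := by
  intro a b c d hab hcd
  have h1 : d - c ∈ ob G (b - a) :=
    one_orbit hP hT hn (sub_ne_zero.2 hab.symm) (sub_ne_zero.2 hcd.symm)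
  obtain ⟨h, hh, h0, h2⟩ := mem_ob.1 h1
  refine ⟨Equiv.addRight c * h * Equiv.addRight (-a),
    G.mul_mem (G.mul_mem (hT c) hh) (hT (-a)), ?_, ?_⟩
  · change h (a + -a) + c = c
    rw [add_neg_cancel, h0, zero_add]
  · change h (b + -a) + c = d
    rw [← sub_eq_add_neg, h2, sub_add_cancel]

end Pool.MP_a7cd38_co.RG
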