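import Pool.Agent.H.MP_a7cd38_co.RG.Iva

/-!
# MP_a7cd38_co, RG/Sub: invariant subgroups and primitivity

* `pr_sub`: an invariant subgroup `H` is a block: if `x`, `g x` are in `H` then `g y - g x ∈ H` for `y ∈ H`, so `g H ⊆ H`, `g H = H`.
* `pr_gen`: the subgroup `K` generated by an invariant set `T` is invariant: by `AddSubgroup.closure_induction` on `d ∈ K`: for all `g ∈ G` and `y`,
  `g (y + d) - g y ∈ K` (and conversely with the inverse of `g`). `K ≤ H ≠ ⊤`, so `K = ⊥` by `pr_sub`.
* `pr_stab`: the set `K` of the `d` with `T + d = T` is a subgroup, and `d ∈ K` iff the number of the pairs `(t, t')` in `T × T` with `t - t' = d` is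
  `#T`, so `K` is invariant by `iv_diff`. It contains `y ≠ 0`, so it is everything, and `T` is everything.
-/

namespace Pool.MP_a7cd38_co.RG

open Finset

variable {n : ℕ} {G : Subgroup (Equiv.Perm (ZMod n))}

theorem pr_sub [NeZero n] (hP : Pr G) (H : AddSubgroup (ZMod n)) (hH : Iv G fun z => z ∈ H) :
    H = ⊥ ∨ H = ⊤ := by
  have hB : ∀ g ∈ G, g '' (H : Set (ZMod n)) = H ∨ Disjoint (g '' (H : Set (ZMod n))) H := by
    intro g hg
    by_cases h : ∃ x ∈ H, g x ∈ H
    · left
      obtain ⟨x, hx, hgx⟩ := h
      ext z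
      constructor
      · rintro ⟨y, hy, rfl⟩
        have h1 : g y - g x ∈ H := by
          rw [show (g y - g x ∈ H) = (y - x ∈ H) from hH g hg y x]
          exact H.sub_mem hy hx
        have h2 := H.add_mem h1 hgx
        rw [sub_add_cancel] at h2
        exact h2
      · intro hz
        refine ⟨g.symm z, ?_, g.apply_symm_apply z⟩
        have h1 : g (g.symm z) - g x ∈ H := by
          rw [g.apply_symm_apply]
          exact H.sub_mem hz hgx
        rw [show (g (g.symm z) - g x ∈ H) = (g.symm z - x ∈ H) from hH g hg (g.symm z) x] at h1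
        have h2 := H.add_mem h1 hx
        rw [sub_add_cancel] at h2
        exact h2
    · right
      rw [Set.disjoint_left]
      rintro z ⟨y, hy, rfl⟩ hz
      exact h ⟨y, hy, hz⟩
  rcases hP H hB with h | h
  · left
    rw [AddSubgroup.eq_bot_iff_forall]
    intro x hx
    exact h hx H.zero_mem
  · right
    rw [AddSubgroup.eq_top_iff']
    intro x
    have h1 : x ∈ (H : Set (ZMod n)) := by
      rw [h]
      exact Set.mem_univ x
    exact h1

theorem pr_gen [NeZero n] (hP : Pr G) {T : Set (ZMod n)} (hT : Iv G fun z => z ∈ T)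
    (H : AddSubgroup (ZMod n)) (hH : H ≠ ⊤) (hTH : T ⊆ H) : ∀ t ∈ T, t = 0 := by
  have key : ∀ d ∈ AddSubgroup.closure T, ∀ g ∈ G, ∀ y : ZMod n,
      g (y + d) - g y ∈ AddSubgroup.closure T := by
    intro d hd
    induction hd using AddSubgroup.closure_induction with
    | mem t ht =>
      intro g hg y
      refine AddSubgroup.subset_closure ?_
      have h1 : (g (y + t) - g y ∈ T) = (y + t - y ∈ T) := hT g hg (y + t) y
      rw [h1, add_sub_cancel_left]
      exact ht
    | zero =>
      intro g hg y
      rw [add_zero, sub_self]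
      exact zero_mem _
    | add a b _ _ ha hb =>
      intro g hg y
      have h1 := add_mem (hb g hg (y + a)) (ha g hg y)
      rw [sub_add_sub_cancel, add_assoc] at h1
      exact h1
    | neg a _ ha =>
      intro g hg y
      have h1 := neg_mem (ha g hg (y + -a))
      rw [neg_sub, neg_add_cancel_right] at h1
      exact h1
  have key2 : ∀ g ∈ G, ∀ x y : ZMod n, x - y ∈ AddSubgroup.closure T →
      g x - g y ∈ AddSubgroup.closure T := by
    intro g hg x y h
    have h1 := key (x - y) h g hg y
    rw [add_sub_cancel] at h1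
    exact h1
  have hK : Iv G fun z => z ∈ AddSubgroup.closure T := by
    intro g hg x y
    refine propext ⟨fun h => ?_, key2 g hg x y⟩
    have h1 := key2 g⁻¹ (inv_mem hg) (g x) (g y) h
    have e : ∀ z, g⁻¹ (g z) = z := g.symm_apply_apply
    rw [e, e] at h1
    exact h1
  intro t ht
  rcases pr_sub hP _ hK with h | h
  · have h1 : t ∈ AddSubgroup.closure T := AddSubgroup.subset_closure ht
    rw [h] at h1
    exact AddSubgroup.mem_bot.1 h1
  · exfalso
    refine hH (top_le_iff.1 ?_)
    rw [← h]
    exact (AddSubgroup.closure_le _).2 hTH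

theorem pr_stab [NeZero n] (hP : Pr G) {T : Finset (ZMod n)} (hT : Iv G fun z => z ∈ T)
    (hne : T.Nonempty) {y : ZMod n} (hy : y ≠ 0) (h : ∀ t ∈ T, t + y ∈ T) : T = univ := by
  classical
  obtain ⟨K, hKm⟩ : ∃ K : AddSubgroup (ZMod n), ∀ d, d ∈ K ↔ ∀ t ∈ T, t + d ∈ T := by
    refine ⟨{ carrier := {d | ∀ t ∈ T, t + d ∈ T}
              zero_mem' := fun t ht => by rw [add_zero]; exact ht
              add_mem' := fun {a b} ha hb t ht => by
                rw [← add_assoc]
                exact hb _ (ha t ht)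
              neg_mem' := fun {a} ha t ht => ?_ }, fun d => Iff.rfl⟩
    have h1 : T.image (fun t => t + a) = T := by
      refine Finset.eq_of_subset_of_card_le ?_ ?_
      · intro z hz
        obtain ⟨t', ht', rfl⟩ := Finset.mem_image.1 hz
        exact ha t' ht'
      · rw [Finset.card_image_of_injective _ (add_left_injective a)]
    rw [← h1, Finset.mem_image] at ht
    obtain ⟨t', ht', e⟩ := ht
    rw [← e, add_neg_cancel_right]
    exact ht'
  have hcard : ∀ d, (#{q ∈ T ×ˢ T | q.1 - q.2 = d} = #T) ↔ d ∈ K := by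
    intro d
    have h1 : {q ∈ T ×ˢ T | q.1 - q.2 = d} = {t ∈ T | t + d ∈ T}.image fun t => (t + d, t) := by
      ext ⟨p, q⟩
      rw [Finset.mem_filter, Finset.mem_product, Finset.mem_image]
      constructor
      · rintro ⟨⟨h1, h2⟩, h3⟩
        dsimp only at h1 h2 h3
        have h4 : q + d = p := by rw [← h3, add_sub_cancel]
        refine ⟨q, Finset.mem_filter.2 ⟨h2, ?_⟩, ?_⟩
        · rw [h4]
          exact h1
        · rw [h4]
      · rintro ⟨t, ht, h3⟩
        rw [Prod.mk.injEq] at h3
        obtain ⟨rfl, rfl⟩ := h3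
        obtain ⟨h1, h2⟩ := Finset.mem_filter.1 ht
        exact ⟨⟨h2, h1⟩, add_sub_cancel_left t d⟩
    have h2 : Function.Injective fun t : ZMod n => (t + d, t) := fun a b hab =>
      congrArg Prod.snd hab
    rw [h1, Finset.card_image_of_injective _ h2, Finset.card_filter_eq_iff, hKm]
  have hK : Iv G fun z => z ∈ K := by
    intro g hg x y
    have h1 := iv_comp (iv_diff hT) (fun m : ℕ => m = #T) g hg x y
    exact propext ⟨fun h2 => (hcard _).1 (h1.mp ((hcard _).2 h2)),
      fun h2 => (hcard _).1 (h1.mpr ((hcard _).2 h2))⟩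
  rcases pr_sub hP K hK with h1 | h1
  · exfalso
    have h2 : y ∈ K := (hKm y).2 h
    rw [h1] at h2
    exact hy (AddSubgroup.mem_bot.1 h2)
  · obtain ⟨t, ht⟩ := hne
    refine Finset.eq_univ_of_forall fun z => ?_
    have h2 : z - t ∈ K := by
      rw [h1]
      exact AddSubgroup.mem_top _
    have h3 := (hKm _).1 h2 t ht
    rw [add_sub_cancel] at h3
    exact h3

end Pool.MP_a7cd38_co.RG
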