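import Pool.Agent.H.MP_a7cd38_co.RG.Fro
import Pool.Agent.H.MP_a7cd38_co.RG.Sub

/-!
# MP_a7cd38_co, RG/Cst: cosets of the subgroup of order `p`

`cst`: the set of the `z` with `(#{t ∈ T | p t = z} : ZMod p) ≠ 0` is invariant (`iv_frob`, `iv_comp`) and contained in the subgroup of the
multiples of `p`, which is proper, so (`pr_gen`) it contains at most `0`. So for `z = p t ≠ 0` the number is divisible by `p`. The solutions
of `p t' = z` are the `t + y`, `p y = 0`, at most `p` (`card_ker`), and `t` is one of them: so all of them are in `T`.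
`card_ker`: the number of the `y : ZMod n` with `p y = 0` is `p` (`p ∣ n`): they are the multiples of `n / p`.
-/

namespace Pool.MP_a7cd38_co.RG

open Finset

variable {n : ℕ} {G : Subgroup (Equiv.Perm (ZMod n))}

theorem card_ker [NeZero n] {p : ℕ} (hp : p.Prime) (hpn : p ∣ n) :
    #{y : ZMod n | (p : ZMod n) * y = 0} = p := by
  obtain ⟨m, rfl⟩ := hpn
  have hm : 0 < m := by
    rcases Nat.eq_zero_or_pos m with h | h
    · exact absurd (by rw [h, mul_zero]) (NeZero.ne (p * m))
    · exact h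
  have h1 : (filter (fun y : ZMod (p * m) => (p : ZMod (p * m)) * y = 0) univ) =
      (range p).image (fun i : ℕ => ((m * i : ℕ) : ZMod (p * m))) := by
    ext y
    rw [mem_filter, mem_image]
    constructor
    · rintro ⟨-, h⟩
      have h2 : ((p * y.val : ℕ) : ZMod (p * m)) = 0 := by
        rw [Nat.cast_mul, ZMod.natCast_zmod_val]
        exact h
      rw [ZMod.natCast_eq_zero_iff] at h2
      obtain ⟨i, hi⟩ := Nat.dvd_of_mul_dvd_mul_left hp.pos h2
      refine ⟨i, mem_range.2 ?_, ?_⟩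
      · have h3 := ZMod.val_lt y
        rw [hi, mul_comm p m] at h3
        exact lt_of_mul_lt_mul_left h3 hm.le
      · rw [← hi, ZMod.natCast_zmod_val]
    · rintro ⟨i, -, rfl⟩
      refine ⟨mem_univ _, ?_⟩
      rw [← Nat.cast_mul, ← mul_assoc, Nat.cast_mul, ZMod.natCast_self, zero_mul]
  rw [h1, card_image_of_injOn, card_range]
  intro i hi j hj hij
  have hi' : i < p := by simpa using hi
  have hj' : j < p := by simpa using hj
  have h2 := (ZMod.natCast_eq_natCast_iff' _ _ _).1 hij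
  rw [Nat.mod_eq_of_lt, Nat.mod_eq_of_lt] at h2
  · exact Nat.eq_of_mul_eq_mul_left hm h2
  · rw [mul_comm p m]
    exact mul_lt_mul_of_pos_left hj' hm
  · rw [mul_comm p m]
    exact mul_lt_mul_of_pos_left hi' hm

theorem cst [NeZero n] (hP : Pr G) {p : ℕ} (hp : p.Prime) (hpn : p ∣ n) {T : Finset (ZMod n)}
    (hT : Iv G fun z => z ∈ T) {t y : ZMod n} (ht : t ∈ T) (h : (p : ZMod n) * t ≠ 0)
    (hy : (p : ZMod n) * y = 0) : t + y ∈ T := by
  have : Fact p.Prime := ⟨hp⟩
  have h1 := iv_frob (G := G) p hT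
  have h2 : Iv G fun z => z ∈ {z : ZMod n | ((#{t ∈ T | (p : ZMod n) * t = z} : ℕ) : ZMod p) ≠ 0} := by
    intro g hg x y
    have h3 := h1 g hg x y
    exact congrArg (fun a : ZMod p => a ≠ 0) h3
  have h3 : (AddMonoidHom.mulLeft (p : ZMod n)).range ≠ ⊤ := by
    intro h4
    have h5 : (1 : ZMod n) ∈ (AddMonoidHom.mulLeft (p : ZMod n)).range := by
      rw [h4]
      exact AddSubgroup.mem_top _
    obtain ⟨z, hz⟩ := h5
    have hz' : (p : ZMod n) * z = 1 := hz
    obtain ⟨m, hm⟩ := hpn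
    have h6 : ((m : ℕ) : ZMod n) = 0 := by
      calc ((m : ℕ) : ZMod n) = (m : ZMod n) * ((p : ZMod n) * z) := by rw [hz', mul_one]
        _ = ((p * m : ℕ) : ZMod n) * z := by
            push_cast
            ring
        _ = 0 := by rw [← hm, ZMod.natCast_self, zero_mul]
    rw [ZMod.natCast_eq_zero_iff] at h6
    have hn : 0 < n := NeZero.pos n
    have hm0 : 0 < m := by
      rcases Nat.eq_zero_or_pos m with h | h
      · rw [h, mul_zero] at hm
        omega
      · exact h
    have h7 := Nat.le_of_dvd hm0 h6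
    have h8 := hp.two_le
    rw [hm] at h7
    nlinarith
  have h4 := pr_gen hP h2 _ h3 (by
    intro z hz
    have h5 : (#{t ∈ T | (p : ZMod n) * t = z} : ℕ) ≠ 0 := by
      intro h6
      apply hz
      rw [h6, Nat.cast_zero]
    obtain ⟨t', ht'⟩ := card_ne_zero.1 h5
    exact ⟨t', (mem_filter.1 ht').2⟩)
  have h5 : ((#{t' ∈ T | (p : ZMod n) * t' = (p : ZMod n) * t} : ℕ) : ZMod p) = 0 := by
    by_contra h6
    exact h (h4 _ h6)
  rw [ZMod.natCast_eq_zero_iff] at h5
  have h6 : #{t' : ZMod n | (p : ZMod n) * t' = (p : ZMod n) * t} = p := by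
    refine Eq.trans ?_ (card_ker hp hpn)
    refine card_bij' (fun a _ => a - t) (fun b _ => b + t) ?_ ?_ ?_ ?_
    · intro a ha
      rw [mem_filter] at ha ⊢
      exact ⟨mem_univ _, by rw [mul_sub, ha.2, sub_self]⟩
    · intro b hb
      rw [mem_filter] at hb ⊢
      exact ⟨mem_univ _, by rw [mul_add, hb.2, zero_add]⟩
    · intro a _
      exact sub_add_cancel a t
    · intro b _
      exact add_sub_cancel_right b t
  have h7 : ({t' ∈ T | (p : ZMod n) * t' = (p : ZMod n) * t} : Finset (ZMod n)) ⊆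
      ({t' : ZMod n | (p : ZMod n) * t' = (p : ZMod n) * t} : Finset (ZMod n)) :=
    filter_subset_filter _ (subset_univ _)
  have h8 : 0 < #{t' ∈ T | (p : ZMod n) * t' = (p : ZMod n) * t} :=
    card_pos.2 ⟨t, mem_filter.2 ⟨ht, rfl⟩⟩
  have h9 := eq_of_subset_of_card_le h7 (by
    rw [h6]
    exact Nat.le_of_dvd h8 h5)
  have h10 : t + y ∈ ({t' : ZMod n | (p : ZMod n) * t' = (p : ZMod n) * t} : Finset (ZMod n)) :=
    mem_filter.2 ⟨mem_univ _, by rw [mul_add, hy, add_zero]⟩
  rw [← h9] at h10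
  exact (mem_filter.1 h10).1

end Pool.MP_a7cd38_co.RG
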