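import Pool.Agent.H.MP_a7cd38_co.RG.Df
import Pool.Agent.H.MP_a7cd38_co.AT.Sq

/-!
# MP_a7cd38_co, RG/Cy: prime order

* `cyc`: let `ν` be a generator of `N` (`ν ≠ 1`, order `n`). Columns: `β c` with `ν ^ (β c) 0 = c`. Rows: `(L r)⁻¹ * L 0 = ν ^ (α r)`, so `L r c = L 0 (ν ^ (β c - α r) 0)`.
  With `γ y = β ((L 0)⁻¹ y)` we get `γ (L r c) = β c - α r`. `α` is injective, because the rows are different (`RowHam`), so bijective.
-/

namespace Pool.MP_a7cd38_co.RG

open Pool.MP_a7cd38_co.AT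

theorem cyc {n : ℕ} (hp : n.Prime) {N : Subgroup (Equiv.Perm (Fin n))}
    (hab : ∀ x ∈ N, ∀ y ∈ N, x * y = y * x) (htr : ∀ a b : Fin n, ∃ x ∈ N, x a = b)
    (hcard : Nat.card N = n) (L : Fin n → Equiv.Perm (Fin n)) (hrow : RowHam L)
    (h : ∀ i j : Fin n, (L j)⁻¹ * L i ∈ N) : IsCyc L := by
  have hF : Fact n.Prime := ⟨hp⟩
  have hZ : NeZero n := ⟨hp.ne_zero⟩
  have hM : Nat.card (Multiplicative (ZMod n)) = n := by
    show Nat.card (ZMod n) = n
    exact Nat.card_zmod n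
  obtain ⟨φ⟩ : Nonempty (N ≃* Multiplicative (ZMod n)) := ⟨mulEquivOfPrimeCardEq hcard hM⟩
  have hev : Function.Bijective (fun x : N => (x : Equiv.Perm (Fin n)) 0) := by
    have hs : Function.Surjective (fun x : N => (x : Equiv.Perm (Fin n)) 0) := by
      intro b
      obtain ⟨x, hx, hxb⟩ := htr 0 b
      exact ⟨⟨x, hx⟩, hxb⟩
    exact (Nat.bijective_iff_surjective_and_card _).2 ⟨hs, by rw [hcard, Nat.card_fin]⟩
  let ev : N ≃ Fin n := Equiv.ofBijective _ hev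
  have hevz : ∀ x : N, ev x = (x : Equiv.Perm (Fin n)) 0 := fun x => rfl
  let β : Fin n ≃ ZMod n := ev.symm.trans (φ.toEquiv.trans Multiplicative.toAdd)
  have hβ : ∀ c, β c = Multiplicative.toAdd (φ (ev.symm c)) := fun c => rfl
  have key : ∀ (x : N) (c : Fin n),
      β ((x : Equiv.Perm (Fin n)) c) = Multiplicative.toAdd (φ x) + β c := by
    intro x c
    have h1 : ev (x * ev.symm c) = (x : Equiv.Perm (Fin n)) c := by
      have h2 : ((ev.symm c : N) : Equiv.Perm (Fin n)) 0 = c := by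
        rw [← hevz, Equiv.apply_symm_apply]
      rw [hevz, Subgroup.coe_mul, Equiv.Perm.mul_apply, h2]
    rw [hβ, hβ, ← h1, Equiv.symm_apply_apply, map_mul, toAdd_mul]
  let a : Fin n → ZMod n := fun r => Multiplicative.toAdd (φ ⟨(L 0)⁻¹ * L r, h r 0⟩)
  have ha : Function.Injective a := by
    intro r s hrs
    by_contra hne
    have h1 : φ ⟨(L 0)⁻¹ * L r, h r 0⟩ = φ ⟨(L 0)⁻¹ * L s, h s 0⟩ :=
      Multiplicative.toAdd.injective hrs
    have h2 : (L 0)⁻¹ * L r = (L 0)⁻¹ * L s := congrArg Subtype.val (φ.injective h1)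
    have h3 : L r = L s := mul_left_cancel h2
    have h4 := (hrow r s hne).1
    rw [h3, inv_mul_cancel] at h4
    exact Equiv.Perm.not_isCycle_one h4
  have hab2 : Function.Bijective a :=
    (Nat.bijective_iff_injective_and_card _).2 ⟨ha, by rw [Nat.card_fin, Nat.card_zmod]⟩
  refine ⟨hp, Equiv.ofBijective a hab2, β, (L 0).symm.trans β, fun r c => ?_⟩
  exact key ⟨(L 0)⁻¹ * L r, h r 0⟩ c

end Pool.MP_a7cd38_co.RG
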