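import Mathlib

/-!
# MP_a7cd38_co, RG/Df: definitions

`Pr G`: all blocks of the permutation group `G` are trivial. `Iv G f`: the function `f` on the integers
modulo `n` is an invariant two-point function: `f (g x - g y) = f (x - y)`.
-/

namespace Pool.MP_a7cd38_co.RG

/-- All blocks are trivial. -/
def Pr {Ω : Type} (G : Subgroup (Equiv.Perm Ω)) : Prop :=
  ∀ B : Set Ω, (∀ g ∈ G, g '' B = B ∨ Disjoint (g '' B) B) → B.Subsingleton ∨ B = Set.univ

/-- The group acts doubly transitively. -/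
def Dbl {Ω : Type} (G : Subgroup (Equiv.Perm Ω)) : Prop :=
  ∀ a b c d : Ω, a ≠ b → c ≠ d → ∃ g ∈ G, g a = c ∧ g b = d

/-- Invariant functions. -/
def Iv {n : ℕ} {α : Type} (G : Subgroup (Equiv.Perm (ZMod n))) (f : ZMod n → α) : Prop :=
  ∀ g ∈ G, ∀ x y : ZMod n, f (g x - g y) = f (x - y)

/-- The group contains the translations. -/
def Tr {n : ℕ} (G : Subgroup (Equiv.Perm (ZMod n))) : Prop :=
  ∀ c : ZMod n, Equiv.addRight c ∈ G

/-- The group generated by the permutations comparing two rows. -/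
def RowGrp {n : ℕ} (L : Fin n → Equiv.Perm (Fin n)) : Subgroup (Equiv.Perm (Fin n)) :=
  Subgroup.closure {g | ∃ i j : Fin n, g = (L j)⁻¹ * L i}

/-- The group generated by the permutations comparing two columns. -/
def ColGrp {n : ℕ} (L : Fin n → Equiv.Perm (Fin n)) : Subgroup (Equiv.Perm (Fin n)) :=
  Subgroup.closure {g | ∃ c d : Fin n, ∀ r, L (g r) d = L r c}

/-- The group generated by the permutations comparing two symbols. -/
def SymGrp {n : ℕ} (L : Fin n → Equiv.Perm (Fin n)) : Subgroup (Equiv.Perm (Fin n)) :=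
  Subgroup.closure {g | ∃ s t : Fin n, ∀ r, L (g r) ((L r).symm s) = t}

/-- Comparing two rows gives a full cycle. -/
def RowHam {n : ℕ} (L : Fin n → Equiv.Perm (Fin n)) : Prop :=
  ∀ i j : Fin n, i ≠ j → ((L j)⁻¹ * L i).IsCycle ∧ ((L j)⁻¹ * L i).support.card = n

end Pool.MP_a7cd38_co.RG
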