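import Pool.Agent.H.MP_a7cd38_co.RG.Mn
import Pool.Agent.H.MP_a7cd38_co.AT.Main

/-!
# MP_a7cd38_co, RG/Fn: columns and symbols

Columns and symbols: the row group of `colSq L` is `ColGrp L`, the row group of `symSq L` is `SymGrp L` (the comparing
permutations are determined: see `col_main`, `sym_main` in AT/Main), and `isCyc_of_colSq`, `isCyc_of_symSq`.
-/

namespace Pool.MP_a7cd38_co.RG

open Pool.MP_a7cd38_co.AT

variable {n : ℕ}

private theorem row_colSq (L : Fin n → Equiv.Perm (Fin n))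
    (hlat : ∀ c : Fin n, Function.Injective (fun r : Fin n => L r c)) :
    RowGrp (colSq L hlat) = ColGrp L := by
  unfold RowGrp ColGrp
  congr 1
  ext g
  constructor
  · rintro ⟨i, j, hg⟩
    refine ⟨i, j, fun r => ?_⟩
    have h1 : colSq L hlat j (g r) = colSq L hlat i r := by
      rw [hg, ← Equiv.Perm.mul_apply, mul_inv_cancel_left]
    rwa [colSq_apply, colSq_apply] at h1
  · rintro ⟨i, j, hg⟩
    refine ⟨i, j, Equiv.ext fun r => ?_⟩
    symm
    rw [Equiv.Perm.mul_apply, Equiv.Perm.inv_eq_iff_eq, colSq_apply, colSq_apply, hg]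

private theorem row_symSq (L : Fin n → Equiv.Perm (Fin n))
    (hlat : ∀ c : Fin n, Function.Injective (fun r : Fin n => L r c)) :
    RowGrp (symSq L hlat) = SymGrp L := by
  unfold RowGrp SymGrp
  congr 1
  ext g
  constructor
  · rintro ⟨i, j, hg⟩
    refine ⟨i, j, fun r => ?_⟩
    have h1 : symSq L hlat j (g r) = symSq L hlat i r := by
      rw [hg, ← Equiv.Perm.mul_apply, mul_inv_cancel_left]
    rw [symSq_apply, symSq_apply] at h1
    rw [← h1, Equiv.apply_symm_apply]
  · rintro ⟨i, j, hg⟩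
    refine ⟨i, j, Equiv.ext fun r => ?_⟩
    symm
    rw [Equiv.Perm.mul_apply, Equiv.Perm.inv_eq_iff_eq, symSq_apply, symSq_apply,
      Equiv.eq_symm_apply, hg]

theorem col_thm (hn : 2 ≤ n) (L : Fin n → Equiv.Perm (Fin n))
    (hlat : ∀ c : Fin n, Function.Injective (fun r : Fin n => L r c))
    (hcol : ∀ c d : Fin n, c ≠ d → ∃ π : Equiv.Perm (Fin n),
      (∀ r : Fin n, L (π r) d = L r c) ∧ π.IsCycle ∧ π.support.card = n) :
    (¬ n.Prime → Dbl (ColGrp L)) ∧ (IsSolvable (ColGrp L) → IsCyc L) := by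
  have hlat' : ∀ c : Fin n, Function.Injective (fun r : Fin n => colSq L hlat r c) := by
    intro c r r' h
    simp only [colSq_apply] at h
    exact (L c).injective h
  have hham : RowHam (colSq L hlat) := by
    intro i j hij
    obtain ⟨π, hπ, h1, h2⟩ := hcol i j hij
    have h3 : (colSq L hlat j)⁻¹ * colSq L hlat i = π := by
      apply Equiv.ext
      intro r
      rw [Equiv.Perm.mul_apply, Equiv.Perm.inv_eq_iff_eq, colSq_apply, colSq_apply, hπ]
    rw [h3]
    exact ⟨h1, h2⟩
  have key := row_thm hn (colSq L hlat) hlat' hham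
  rw [row_colSq] at key
  exact ⟨key.1, fun h => isCyc_of_colSq L hlat (key.2 h)⟩

theorem sym_thm (hn : 2 ≤ n) (L : Fin n → Equiv.Perm (Fin n))
    (hlat : ∀ c : Fin n, Function.Injective (fun r : Fin n => L r c))
    (hsym : ∀ s t : Fin n, s ≠ t → ∃ π : Equiv.Perm (Fin n),
      (∀ r : Fin n, L (π r) ((L r).symm s) = t) ∧ π.IsCycle ∧ π.support.card = n) :
    (¬ n.Prime → Dbl (SymGrp L)) ∧ (IsSolvable (SymGrp L) → IsCyc L) := by
  have hlat' : ∀ c : Fin n, Function.Injective (fun r : Fin n => symSq L hlat r c) := by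
    intro c r r' h
    simp only [symSq_apply] at h
    exact (L c).symm.injective h
  have hham : RowHam (symSq L hlat) := by
    intro i j hij
    obtain ⟨π, hπ, h1, h2⟩ := hsym i j hij
    have h3 : (symSq L hlat j)⁻¹ * symSq L hlat i = π := by
      apply Equiv.ext
      intro r
      rw [Equiv.Perm.mul_apply, Equiv.Perm.inv_eq_iff_eq, symSq_apply, symSq_apply,
        Equiv.eq_symm_apply, hπ]
    rw [h3]
    exact ⟨h1, h2⟩
  have key := row_thm hn (symSq L hlat) hlat' hham
  rw [row_symSq] at key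
  exact ⟨key.1, fun h => isCyc_of_symSq L hlat (key.2 h)⟩

end Pool.MP_a7cd38_co.RG
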