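import Pool.Agent.H.MP_a7cd38_co.RG.Iva

/-!
# MP_a7cd38_co, RG/Fro: the Frobenius map

In the commutative ring `A = AddMonoidAlgebra (ZMod p) (ZMod n)` of characteristic `p` let `u = ∑ t ∈ T, single t 1`. By
`iv_conv` and induction all powers of `u` have invariant coefficients (coefficient of `u * v` at `z` = `∑ w, u w * v (z - w)`; exponent
`0`: the coefficients of `1` are `1` at `0` and `0` elsewhere, invariant because `g x = g y` iff `x = y`). And `u ^ p = ∑ t ∈ T, single (p • t) 1`
(`sum_pow_char`), with the coefficient `#{t ∈ T | p t = z}` at `z`.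
-/

namespace Pool.MP_a7cd38_co.RG

open Finset

variable {n : ℕ} {G : Subgroup (Equiv.Perm (ZMod n))}

/-- The coefficients of a product with the sum of the elements of `T`. -/
private theorem frob_coeff_mul [NeZero n] (p : ℕ) (T : Finset (ZMod n))
    (v : AddMonoidAlgebra (ZMod p) (ZMod n)) (z : ZMod n) :
    ((∑ t ∈ T, AddMonoidAlgebra.single t (1 : ZMod p)) * v).coeff z
      = ∑ w, (if w ∈ T then (1 : ZMod p) else 0) * v.coeff (z - w) := by
  have h1 : ∑ w, (if w ∈ T then (1 : ZMod p) else 0) * v.coeff (z - w)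
      = ∑ w ∈ T, v.coeff (z - w) := by
    simp only [ite_mul, one_mul, zero_mul]
    rw [Finset.sum_ite_mem, Finset.univ_inter]
  rw [h1, Finset.sum_mul, AddMonoidAlgebra.coeff_sum, Finsupp.finsetSum_apply]
  refine Finset.sum_congr rfl fun t _ => ?_
  rw [AddMonoidAlgebra.coeff_single_mul_apply, one_mul]
  congr 1
  ring

/-- The coefficients of the powers are invariant. -/
private theorem frob_pow [NeZero n] (p : ℕ) {T : Finset (ZMod n)}
    (hT : Iv G fun z => z ∈ T) (k : ℕ) :
    Iv G fun z => ((∑ t ∈ T, AddMonoidAlgebra.single t (1 : ZMod p)) ^ k).coeff z := by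
  induction k with
  | zero =>
    intro g _ x y
    have h2 : (0 = g x - g y) ↔ (0 = x - y) := by
      rw [eq_comm, sub_eq_zero, eq_comm (a := (0 : ZMod n)), sub_eq_zero, g.injective.eq_iff]
    simp only [pow_zero, AddMonoidAlgebra.one_def, AddMonoidAlgebra.coeff_single,
      Finsupp.single_apply, h2]
  | succ k ih =>
    classical
    have h1 : Iv G fun z => (if z ∈ T then (1 : ZMod p) else 0) := by
      intro g hg x y
      have h2 : (g x - g y ∈ T) = (x - y ∈ T) := hT g hg x y
      simp only [h2]
    intro g hg x y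
    have h3 := iv_conv h1 ih g hg x y
    simp only [pow_succ', frob_coeff_mul]
    exact h3

theorem iv_frob [NeZero n] (p : ℕ) [Fact p.Prime] {T : Finset (ZMod n)}
    (hT : Iv G fun z => z ∈ T) :
    Iv G fun z => ((#{t ∈ T | (p : ZMod n) * t = z} : ℕ) : ZMod p) := by
  classical
  have : CharP (AddMonoidAlgebra (ZMod p) (ZMod n)) p :=
    charP_of_injective_algebraMap (R := ZMod p) (FaithfulSMul.algebraMap_injective _ _) p
  have h1 : ∀ z : ZMod n,
      ((∑ t ∈ T, AddMonoidAlgebra.single t (1 : ZMod p)) ^ p).coeff z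
        = ((#{t ∈ T | (p : ZMod n) * t = z} : ℕ) : ZMod p) := by
    intro z
    rw [sum_pow_char p, AddMonoidAlgebra.coeff_sum, Finsupp.finsetSum_apply, Finset.card_filter,
      Nat.cast_sum]
    refine Finset.sum_congr rfl fun t _ => ?_
    rw [AddMonoidAlgebra.single_pow, AddMonoidAlgebra.coeff_single, Finsupp.single_apply,
      one_pow, nsmul_eq_mul]
    split_ifs <;> simp
  intro g hg x y
  have h2 := frob_pow (G := G) p hT p g hg x y
  simp only [h1] at h2
  exact h2

end Pool.MP_a7cd38_co.RG
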