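import Pool.Agent.H.MP_a7cd38_co.RG.Df

/-!
# MP_a7cd38_co, RG/Inn: prime order

* `in_N`: `s ^ n = 1` (`n = p`). Conjugation by `s` on the group `N` of prime order is `x ↦ x ^ j` (`x` a generator), `j ^ p ≡ 1` modulo `p`, so `j ≡ 1` (Fermat): `s` commutes with
  `N`. `s a = x a` with `x ∈ N`, and then `s (y a) = y (s a) = y (x a) = x (y a)` for all `y ∈ N`: `s = x`.
-/

namespace Pool.MP_a7cd38_co.RG

theorem in_N {n : ℕ} (hp : n.Prime) {N : Subgroup (Equiv.Perm (Fin n))}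
    (hab : ∀ x ∈ N, ∀ y ∈ N, x * y = y * x) (htr : ∀ a b : Fin n, ∃ x ∈ N, x a = b)
    (hcard : Nat.card N = n) {s : Equiv.Perm (Fin n)} (hs : s.IsCycle) (hc : s.support.card = n)
    (hsN : ∀ x ∈ N, s * x * s⁻¹ ∈ N) : s ∈ N := by
  have : Fact n.Prime := ⟨hp⟩
  -- an element different from the identity
  have h01 : (⟨0, hp.pos⟩ : Fin n) ≠ ⟨1, hp.one_lt⟩ := by
    intro h
    have := congrArg Fin.val h
    simp at this
  obtain ⟨x, hxN, hx01⟩ := htr ⟨0, hp.pos⟩ ⟨1, hp.one_lt⟩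
  have hx1 : x ≠ 1 := by
    rintro rfl
    exact h01 hx01
  have hX1 : (⟨x, hxN⟩ : N) ≠ 1 := fun h => hx1 (congrArg Subtype.val h)
  have hpow : ∀ y ∈ N, ∃ k : ℕ, x ^ k = y := by
    intro y hy
    obtain ⟨k, hk⟩ := mem_powers_of_prime_card (hp := ⟨hp⟩) hcard (g' := ⟨y, hy⟩) hX1
    exact ⟨k, by simpa using congrArg Subtype.val hk⟩
  have hord : orderOf x = n := by
    refine orderOf_eq_prime ?_ hx1
    have h1 : (⟨x, hxN⟩ : N) ^ (Nat.card N) = 1 := pow_card_eq_one'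
    rw [hcard] at h1
    simpa using congrArg Subtype.val h1
  obtain ⟨j, hj⟩ := hpow _ (hsN x hxN)
  have hk : ∀ k : ℕ, s ^ k * x * (s ^ k)⁻¹ = x ^ (j ^ k) := by
    intro k
    induction k with
    | zero => simp
    | succ k ih =>
      calc s ^ (k + 1) * x * (s ^ (k + 1))⁻¹ = s * (s ^ k * x * (s ^ k)⁻¹) * s⁻¹ := by
            rw [pow_succ']
            group
        _ = s * x ^ (j ^ k) * s⁻¹ := by rw [ih]
        _ = (s * x * s⁻¹) ^ (j ^ k) := by rw [conj_pow]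
        _ = x ^ (j ^ (k + 1)) := by rw [← hj, ← pow_mul, pow_succ, mul_comm (j ^ k) j]
  have hsn : s ^ n = 1 := by
    have h1 := pow_orderOf_eq_one s
    rw [hs.orderOf, hc] at h1
    exact h1
  have h1 : x ^ 1 = x ^ (j ^ n) := by
    rw [← hk n, hsn]
    simp
  have h2 : 1 ≡ j ^ n [MOD n] := by
    rw [pow_eq_pow_iff_modEq, hord] at h1
    exact h1
  have h3 : (j : ZMod n) = 1 := by
    have h4 := (ZMod.natCast_eq_natCast_iff _ _ _).mpr h2
    push_cast at h4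
    rw [ZMod.pow_card] at h4
    exact h4.symm
  have h5 : x ^ j = x ^ 1 := by
    rw [pow_eq_pow_iff_modEq, hord]
    exact (ZMod.natCast_eq_natCast_iff _ _ _).mp (by simpa using h3)
  have hcx : Commute s x := by
    have h6 : s * x * s⁻¹ = x := by rw [← hj, h5, pow_one]
    exact mul_inv_eq_iff_eq_mul.mp h6
  have hcN : ∀ y ∈ N, s * y = y * s := by
    intro y hy
    obtain ⟨k, rfl⟩ := hpow y hy
    exact (hcx.pow_right k)
  obtain ⟨y, hyN, hy⟩ := htr ⟨0, hp.pos⟩ (s ⟨0, hp.pos⟩)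
  have hsy : s = y := by
    ext b
    obtain ⟨z, hzN, rfl⟩ := htr ⟨0, hp.pos⟩ b
    congr 1
    calc s (z ⟨0, hp.pos⟩) = (s * z) ⟨0, hp.pos⟩ := rfl
      _ = (z * s) ⟨0, hp.pos⟩ := by rw [hcN z hzN]
      _ = z (y ⟨0, hp.pos⟩) := by rw [hy]; rfl
      _ = (z * y) ⟨0, hp.pos⟩ := rfl
      _ = (y * z) ⟨0, hp.pos⟩ := by rw [hab z hzN y hyN]
      _ = y (z ⟨0, hp.pos⟩) := rfl
  rw [hsy]
  exact hyN

end Pool.MP_a7cd38_co.RG
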