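import Pool.Agent.H.MP_a7cd38_co.RG.Df

/-!
# MP_a7cd38_co, RG/Iva: invariant functions

* `iv_conv`: in `∑ w, f w * h (g x - g y - w)` put `w = g x - g z` (`z` runs through all elements), get
  `∑ z, f (g x - g z) * h (g z - g y) = ∑ z, f (x - z) * h (z - y)`.
* `iv_orb`: if `g x = x' - y'`, `g 0 = 0` then `h = (· - g' y') ∘ g' ∘ (· + y') ∘ g` is in `G`, `h 0 = 0`, `h x = g' x' - g' y'`.
  (and the converse with the inverse of `g'`.)
* `iv_const`: `f x = f (x - 0) = f (g x - g 0) = f (g x)`.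
* `iv_neg`: the negative.
-/

namespace Pool.MP_a7cd38_co.RG

open Finset

variable {n : ℕ} {G : Subgroup (Equiv.Perm (ZMod n))}

theorem iv_conv [NeZero n] {R : Type} [CommSemiring R] {f h : ZMod n → R} (hf : Iv G f)
    (hh : Iv G h) : Iv G fun z => ∑ w, f w * h (z - w) := by
  intro g hg x y
  show ∑ w, f w * h (g x - g y - w) = ∑ w, f w * h (x - y - w)
  rw [← Equiv.sum_comp (g.trans (Equiv.subLeft (g x))) (fun w => f w * h (g x - g y - w)),
    ← Equiv.sum_comp (Equiv.subLeft x) (fun w => f w * h (x - y - w))]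
  refine Finset.sum_congr rfl fun z _ => ?_
  show f (g x - g z) * h (g x - g y - (g x - g z)) = f (x - z) * h (x - y - (x - z))
  have h1 : g x - g y - (g x - g z) = g z - g y := by ring
  have h2 : x - y - (x - z) = z - y := by ring
  rw [h1, h2, hf g hg, hh g hg]

private theorem Iva_orb (hT : Tr G) (x : ZMod n) {g' : Equiv.Perm (ZMod n)} (hg' : g' ∈ G)
    (x' y' : ZMod n) (h : ∃ g ∈ G, g 0 = 0 ∧ g x = x' - y') :
    ∃ g ∈ G, g 0 = 0 ∧ g x = g' x' - g' y' := by
  obtain ⟨g, hg, h0, hx⟩ := h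
  refine ⟨Equiv.addRight (-(g' y')) * g' * Equiv.addRight y' * g, ?_, ?_, ?_⟩
  · exact G.mul_mem (G.mul_mem (G.mul_mem (hT _) hg') (hT _)) hg
  · show g' (g 0 + y') + -(g' y') = 0
    rw [h0, zero_add, add_neg_cancel]
  · show g' (g x + y') + -(g' y') = g' x' - g' y'
    rw [hx, sub_add_cancel, sub_eq_add_neg]

theorem iv_orb (hT : Tr G) (x : ZMod n) : Iv G fun z => ∃ g ∈ G, g 0 = 0 ∧ g x = z := by
  intro g' hg' x' y'
  refine propext ⟨fun h => ?_, fun h => Iva_orb hT x hg' x' y' h⟩
  have h1 := Iva_orb hT x (G.inv_mem hg') (g' x') (g' y') h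
  simpa using h1

theorem iv_const {α : Type} {f : ZMod n → α} (hf : Iv G f) {g : Equiv.Perm (ZMod n)} (hg : g ∈ G)
    (h0 : g 0 = 0) (x : ZMod n) : f (g x) = f x := by
  have h := hf g hg x 0
  rwa [h0, sub_zero, sub_zero] at h

theorem iv_neg {α : Type} {f : ZMod n → α} (hf : Iv G f) : Iv G fun z => f (-z) := by
  intro g hg x y
  show f (-(g x - g y)) = f (-(x - y))
  rw [neg_sub, neg_sub]
  exact hf g hg y x

theorem iv_comp {α β : Type} {f : ZMod n → α} (hf : Iv G f) (u : α → β) :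
    Iv G fun z => u (f z) := by
  intro g hg x y
  exact congrArg u (hf g hg x y)

/-- the number of representations as a difference -/
theorem iv_diff [NeZero n] {T : Finset (ZMod n)} (hT : Iv G fun z => z ∈ T) :
    Iv G fun z => #{q ∈ T ×ˢ T | q.1 - q.2 = z} := by
  classical
  have hf : Iv G fun z => (if z ∈ T then 1 else 0 : ℕ) := by
    intro g hg x y
    have h := hT g hg x y
    have h' : (g x - g y ∈ T) = (x - y ∈ T) := h
    show (if g x - g y ∈ T then 1 else 0 : ℕ) = (if x - y ∈ T then 1 else 0 : ℕ)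
    simp only [h']
  have hh : Iv G fun z => (if -z ∈ T then 1 else 0 : ℕ) := iv_neg hf
  have hc := iv_conv hf hh
  have key : ∀ z : ZMod n, #{q ∈ T ×ˢ T | q.1 - q.2 = z}
      = ∑ w, (if w ∈ T then 1 else 0 : ℕ) * (if -(z - w) ∈ T then 1 else 0 : ℕ) := by
    intro z
    have h1 : #{q ∈ T ×ˢ T | q.1 - q.2 = z} = #{w ∈ (univ : Finset (ZMod n)) | w ∈ T ∧ -(z - w) ∈ T} := by
      refine Finset.card_bij (fun q _ => q.1) ?_ ?_ ?_
      · intro q hq
        rw [Finset.mem_filter, Finset.mem_product] at hq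
        rw [Finset.mem_filter]
        refine ⟨Finset.mem_univ _, hq.1.1, ?_⟩
        have : -(z - q.1) = q.2 := by
          rw [← hq.2]
          ring
        rw [this]
        exact hq.1.2
      · intro q hq q' hq' h
        rw [Finset.mem_filter] at hq hq'
        have h2 := hq.2
        have h3 := hq'.2
        have h : q.1 = q'.1 := h
        rw [← h3, h] at h2
        exact Prod.ext h (sub_right_injective h2)
      · intro w hw
        rw [Finset.mem_filter] at hw
        refine ⟨(w, -(z - w)), ?_, rfl⟩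
        rw [Finset.mem_filter, Finset.mem_product]
        refine ⟨hw.2, ?_⟩
        show w - -(z - w) = z
        ring
    rw [h1, Finset.card_filter]
    refine Finset.sum_congr rfl fun w _ => ?_
    by_cases ha : w ∈ T <;> by_cases hb : -(z - w) ∈ T <;> simp [ha, hb]
  have h4 : (fun z : ZMod n => #{q ∈ T ×ˢ T | q.1 - q.2 = z})
      = fun z => ∑ w, (if w ∈ T then 1 else 0 : ℕ) * (if -(z - w) ∈ T then 1 else 0 : ℕ) :=
    funext key
  rw [h4]
  exact hc

end Pool.MP_a7cd38_co.RG
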