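import Mathlib

/-!
# MP_a7cd38_co, RG/Lin: unipotent linear maps

* `poly_geom`: in the polynomial ring over `ZMod p`: `(X - 1) * ∑ i < p ^ j, X ^ i = X ^ (p ^ j) - 1 = (X - 1) ^ (p ^ j)`, cancel `X - 1`. Then apply `Polynomial.aeval`.
* `nilp`: `f - 1` is nilpotent because `(f - 1) ^ (p ^ k) = f ^ (p ^ k) - 1 = 0` (`sub_pow_char_pow_of_commute` or `poly` as above), and a nilpotent endomorphism `N` of a module with `p ^ k` elements has
  `N ^ k = 0`: the images of the powers are strictly decreasing until `0`, indices at least `p` (or the dimension is `k`).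
* `lin`: so `∑ i < p ^ (k - 1), f ^ i = (f - 1) ^ (p ^ (k - 1) - 1) = 0` as `p ^ (k - 1) - 1 ≥ k` for `p ≥ 3`, `k ≥ 2`.
-/

namespace Pool.MP_a7cd38_co.RG

open Polynomial in
private theorem Lin_poly {p : ℕ} [Fact p.Prime] (j : ℕ) :
    (∑ i ∈ Finset.range (p ^ j), (X : (ZMod p)[X]) ^ i) = (X - 1) ^ (p ^ j - 1) ∧
      (X - 1 : (ZMod p)[X]) ^ (p ^ j) = X ^ (p ^ j) - 1 := by
  have hp : p.Prime := Fact.out
  have h1 : (X - 1 : (ZMod p)[X]) ^ (p ^ j) = X ^ (p ^ j) - 1 := by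
    rw [sub_pow_char_pow, one_pow]
  have h2 : (X - 1 : (ZMod p)[X]) ≠ 0 := by
    rw [← C_1]
    exact X_sub_C_ne_zero 1
  refine ⟨mul_left_cancel₀ h2 ?_, h1⟩
  rw [mul_geom_sum, ← h1, ← pow_succ', Nat.sub_add_cancel (Nat.one_le_pow _ _ hp.pos)]

theorem poly_geom {p : ℕ} [Fact p.Prime] {V : Type} [AddCommGroup V] [Module (ZMod p) V]
    (f : V →ₗ[ZMod p] V) (j : ℕ) :
    ∑ i ∈ Finset.range (p ^ j), f ^ i = (f - 1) ^ (p ^ j - 1) := by
  have h := congrArg (Polynomial.aeval f) (Lin_poly (p := p) j).1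
  simpa only [map_sum, map_pow, Polynomial.aeval_X, map_sub, map_one] using h

private theorem Lin_pow {p : ℕ} [Fact p.Prime] {V : Type} [AddCommGroup V] [Module (ZMod p) V]
    (f : V →ₗ[ZMod p] V) (j : ℕ) : (f - 1) ^ (p ^ j) = f ^ (p ^ j) - 1 := by
  have h := congrArg (Polynomial.aeval f) (Lin_poly (p := p) j).2
  simpa only [map_pow, Polynomial.aeval_X, map_sub, map_one] using h

theorem nilp {p : ℕ} [Fact p.Prime] {V : Type} [AddCommGroup V] [Module (ZMod p) V]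
    [Finite V] {k : ℕ} (hV : Nat.card V = p ^ k) (f : V →ₗ[ZMod p] V) (hf : f ^ (p ^ k) = 1) :
    (f - 1) ^ k = 0 := by
  have hp : p.Prime := Fact.out
  have h1 : (f - 1) ^ (p ^ k) = 0 := by
    rw [Lin_pow, hf, sub_self]
  have hfin : Module.Finite (ZMod p) V := Module.Finite.of_finite
  have h2 : Module.finrank (ZMod p) V = k := by
    have h3 := Module.natCard_eq_pow_finrank (K := ZMod p) (V := V)
    rw [hV, Nat.card_zmod] at h3
    exact (Nat.pow_right_injective hp.two_le h3).symm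
  have h3 : Module.finrank (ZMod p) V ≤ p ^ k := by
    rw [h2]
    exact (Nat.lt_pow_self hp.one_lt).le
  have h4 := Module.End.ker_pow_eq_ker_pow_finrank_of_le (f := f - 1) h3
  rw [h1, h2] at h4
  exact LinearMap.ker_eq_top.1 (h4.symm.trans LinearMap.ker_zero)

theorem lin {p : ℕ} [Fact p.Prime] (hp : p ≠ 2) {V : Type} [AddCommGroup V] [Module (ZMod p) V]
    [Finite V] {k : ℕ} (hk : 2 ≤ k) (hV : Nat.card V = p ^ k) (f : V →ₗ[ZMod p] V)
    (hf : f ^ (p ^ k) = 1) (v : V) :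
    ∑ i ∈ Finset.range (p ^ (k - 1)), (f ^ i) v = 0 := by
  have hp1 : p.Prime := Fact.out
  have hp3 : 3 ≤ p := by
    have := hp1.two_le
    omega
  have h1 : k ≤ p ^ (k - 1) - 1 := by
    have h2 : ∀ m : ℕ, m + 3 ≤ 3 ^ (m + 1) := by
      intro m
      induction m with
      | zero => norm_num
      | succ m ih => rw [pow_succ]; omega
    obtain ⟨m, rfl⟩ : ∃ m, k = m + 2 := ⟨k - 2, by omega⟩
    have h3 := h2 m
    have h4 : 3 ^ (m + 1) ≤ p ^ (m + 1) := Nat.pow_le_pow_left hp3 _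
    show m + 2 ≤ p ^ (m + 1) - 1
    omega
  have h5 : (∑ i ∈ Finset.range (p ^ (k - 1)), f ^ i) v = 0 := by
    rw [poly_geom, ← Nat.sub_add_cancel h1, pow_add, nilp hV f hf, mul_zero]
    rfl
  rw [LinearMap.sum_apply] at h5
  exact h5

end Pool.MP_a7cd38_co.RG
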