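import Pool.Agent.H.MP_a7cd38_co.RG.Lin

/-!
# MP_a7cd38_co, RG/Pw: a full cycle normalizing a regular elementary abelian group

* `pw`: fix `a : Fin n`; `s a = b a` with `b ∈ N`; `φ x = s x s⁻¹` on `N`. `s ^ m a = (∏ i < m, φ^i b) a` (induction). Let `V = Additive N` as a module over `ZMod p`
  (`AddCommGroup.zmodModule`), `f` = the linear map given by `φ`; `f ^ n = 1` because `s ^ n = 1`. By `lin` the product for `m = p ^ (k - 1)` is `1`, so `s ^ m a = a`, but `s` is a full cycle and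
  `0 < m < n`.
-/

namespace Pool.MP_a7cd38_co.RG

private theorem Pw_lin {n p k : ℕ} [Fact p.Prime] (hp2 : p ≠ 2) (hk : 2 ≤ k)
    {V : Type} [AddCommGroup V] [Module (ZMod p) V] [Finite V] (hV : Nat.card V = p ^ k)
    (ι : V → Equiv.Perm (Fin n)) (h0 : ι 0 = 1) (hadd : ∀ x y, ι (x + y) = ι x * ι y)
    (hinj : Function.Injective ι) {s : Equiv.Perm (Fin n)} (hs : s ^ (p ^ k) = 1)
    (f : V →ₗ[ZMod p] V) (hf : ∀ x, ι (f x) = s * ι x * s⁻¹) (b : V) (a : Fin n)
    (hb : ι b a = s a) : (s ^ (p ^ (k - 1))) a = a := by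
  have hfi : ∀ (i : ℕ) (x : V), ι ((f ^ i) x) = s ^ i * ι x * (s ^ i)⁻¹ := by
    intro i
    induction i with
    | zero => intro x; simp
    | succ i ih =>
      intro x
      rw [pow_succ' f i, Module.End.mul_apply, hf, ih, pow_succ' s i]
      group
  have hf1 : f ^ (p ^ k) = 1 := by
    apply LinearMap.ext
    intro x
    apply hinj
    rw [hfi, hs, Module.End.one_apply]
    group
  have hF : ∀ m : ℕ, ι (∑ i ∈ Finset.range m, (f ^ i) b) a = (s ^ m) a := by
    intro m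
    induction m with
    | zero => rw [Finset.sum_range_zero, h0, pow_zero]
    | succ m ih =>
      rw [Finset.sum_range_succ, add_comm, hadd, Equiv.Perm.mul_apply, ih, hfi]
      show (s ^ m) (ι b ((s ^ m).symm ((s ^ m) a))) = _
      rw [Equiv.symm_apply_apply, hb, pow_succ]
      rfl
  have h1 := lin hp2 hk hV f hf1 b
  rw [← hF, h1, h0]
  rfl

private theorem Pw_abs {n p k : ℕ} [Fact p.Prime] (hp2 : p ≠ 2) (hk : 2 ≤ k)
    {V : Type} [AddCommGroup V] [Finite V] (hV : Nat.card V = p ^ k) (hexp : ∀ x : V, p • x = 0)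
    (ι : V → Equiv.Perm (Fin n)) (h0 : ι 0 = 1) (hadd : ∀ x y, ι (x + y) = ι x * ι y)
    (hinj : Function.Injective ι) {s : Equiv.Perm (Fin n)} (hs : s ^ (p ^ k) = 1)
    (hφ : ∀ x, ∃ y, ι y = s * ι x * s⁻¹) (b : V) (a : Fin n)
    (hb : ι b a = s a) : (s ^ (p ^ (k - 1))) a = a := by
  let inst : Module (ZMod p) V := AddCommGroup.zmodModule hexp
  choose φ hφ using hφ
  have hz : φ 0 = 0 := by
    apply hinj
    rw [hφ, h0]
    group
  have ha : ∀ x y, φ (x + y) = φ x + φ y := by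
    intro x y
    apply hinj
    rw [hφ, hadd, hadd, hφ, hφ]
    group
  let g : V →+ V := { toFun := φ, map_zero' := hz, map_add' := ha }
  exact Pw_lin hp2 hk hV ι h0 hadd hinj hs (g.toZModLinearMap p) hφ b a hb

private theorem Pw_main {n p k : ℕ} [Fact p.Prime] (hp2 : p ≠ 2) (hk : 2 ≤ k)
    {N : Subgroup (Equiv.Perm (Fin n))} (hab : ∀ x ∈ N, ∀ y ∈ N, x * y = y * x)
    (hexp : ∀ x ∈ N, x ^ p = 1) (hcard : Nat.card N = p ^ k) {s : Equiv.Perm (Fin n)}
    (hs : s ^ (p ^ k) = 1) (hsN : ∀ x ∈ N, s * x * s⁻¹ ∈ N) (b : N) (a : Fin n)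
    (hb : (b : Equiv.Perm (Fin n)) a = s a) : (s ^ (p ^ (k - 1))) a = a := by
  let inst : AddCommGroup (Additive N) :=
    { (inferInstance : AddGroup (Additive N)) with
      add_comm := fun x y => Additive.toMul.injective
        (Subtype.ext (hab _ (Additive.toMul x).2 _ (Additive.toMul y).2)) }
  refine Pw_abs hp2 hk (V := Additive N) hcard ?_ (fun x => ((Additive.toMul x : N) :
    Equiv.Perm (Fin n))) rfl (fun _ _ => rfl) ?_ hs ?_ (Additive.ofMul b) a hb
  · intro x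
    apply Additive.toMul.injective
    apply Subtype.ext
    exact hexp _ (Additive.toMul x).2
  · intro x y hxy
    exact Additive.toMul.injective (Subtype.ext hxy)
  · intro x
    exact ⟨Additive.ofMul ⟨_, hsN _ (Additive.toMul x).2⟩, rfl⟩

theorem pw {n p k : ℕ} (hn : 2 ≤ n) (hp : p.Prime) (hp2 : p ≠ 2) (hk : n = p ^ k)
    {N : Subgroup (Equiv.Perm (Fin n))} (hab : ∀ x ∈ N, ∀ y ∈ N, x * y = y * x)
    (hexp : ∀ x ∈ N, x ^ p = 1) (htr : ∀ a b : Fin n, ∃ x ∈ N, x a = b) (hcard : Nat.card N = n)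
    {s : Equiv.Perm (Fin n)} (hs : s.IsCycle) (hc : s.support.card = n)
    (hsN : ∀ x ∈ N, s * x * s⁻¹ ∈ N) : k = 1 := by
  have hfact : Fact p.Prime := ⟨hp⟩
  by_contra hk1
  have hk0 : k ≠ 0 := by
    rintro rfl
    rw [pow_zero] at hk
    omega
  have hk2 : 2 ≤ k := by omega
  have hord : orderOf s = p ^ k := by rw [hs.orderOf, hc, hk]
  have hs1 : s ^ (p ^ k) = 1 := by rw [← hord, pow_orderOf_eq_one]
  have ha : ∃ a : Fin n, True := ⟨⟨0, by omega⟩, trivial⟩
  obtain ⟨a, -⟩ := ha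
  have hsupp : s.support = Finset.univ := by
    rw [← Finset.card_eq_iff_eq_univ, hc, Fintype.card_fin]
  have hsa : s a ≠ a := by
    rw [← Equiv.Perm.mem_support, hsupp]
    exact Finset.mem_univ a
  obtain ⟨b, hb, hba⟩ := htr a (s a)
  have h1 := Pw_main hp2 hk2 hab hexp (hcard.trans hk) hs1 hsN ⟨b, hb⟩ a hba
  have h2 : s ^ (p ^ (k - 1)) = 1 := (hs.pow_eq_one_iff' hsa).2 h1
  have h3 := orderOf_dvd_of_pow_eq_one h2
  rw [hord] at h3
  have h4 := (Nat.pow_dvd_pow_iff_le_right hp.one_lt).1 h3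
  omega

end Pool.MP_a7cd38_co.RG
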