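import Pool.Agent.H.MP_a7cd38_co.RG.Tra
import Pool.Agent.H.MP_a7cd38_co.RG.Blk
import Pool.Agent.H.MP_a7cd38_co.RG.Pw
import Pool.Agent.H.MP_a7cd38_co.RG.Cy
import Pool.Agent.H.MP_a7cd38_co.RG.Inn
import Pool.Agent.H.MP_a7cd38_co.RG.Ab

/-!
# MP_a7cd38_co, RG/Mn: the row group

`row_thm`: `schur` with `row_pr`; a comparing permutation of two rows is a full cycle in the row group. If the group is solvable: `exists_ab`, `nm_trans`, `nm_card`, `nm_exp`; `n = p ^ k`; if `p = 2` then
`n = 2` by `row_even`, otherwise `k = 1` by `pw`; so `n` is prime; `in_N` for all comparing permutations, `cyc`.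
-/

namespace Pool.MP_a7cd38_co.RG

open Pool.MP_a7cd38_co.AT

variable {n : ℕ}

theorem row_thm (hn : 2 ≤ n) (L : Fin n → Equiv.Perm (Fin n))
    (hlat : ∀ c : Fin n, Function.Injective (fun r : Fin n => L r c)) (hrow : RowHam L) :
    (¬ n.Prime → Dbl (RowGrp L)) ∧ (IsSolvable (RowGrp L) → IsCyc L) := by
  have hmem : ∀ i j : Fin n, (L j)⁻¹ * L i ∈ RowGrp L := fun i j =>
    Subgroup.subset_closure ⟨i, j, rfl⟩
  have hne : (⟨0, by omega⟩ : Fin n) ≠ ⟨1, by omega⟩ := by
    intro h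
    have h1 := congrArg Fin.val h
    exact absurd h1 (by norm_num)
  obtain ⟨i0, j0, hij⟩ : ∃ i0 j0 : Fin n, i0 ≠ j0 := ⟨_, _, hne⟩
  obtain ⟨hs, hc⟩ := hrow i0 j0 hij
  have hP := row_pr hn L hlat hrow
  refine ⟨fun hnp => schur hn hnp hP (hmem i0 j0) hs hc, fun hS => ?_⟩
  have hR : RowGrp L ≠ ⊥ := by
    intro h
    have h1 := hmem i0 j0
    rw [h, Subgroup.mem_bot] at h1
    exact hs.ne_one h1
  obtain ⟨N, -, hNm, hab, h1⟩ := exists_ab _ hS hR
  have htr := nm_trans hP hNm h1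
  have hcard := nm_card hn hP hNm h1 hab
  obtain ⟨p, k, hp, hk, hexp⟩ := nm_exp hn hP hNm h1 hab
  have hprime : n.Prime := by
    by_cases hp2 : p = 2
    · have hk0 : k ≠ 0 := by
        rintro rfl
        rw [pow_zero] at hk
        omega
      have he : Even n := by
        rw [hk, hp2]
        exact (Nat.even_pow' hk0).2 even_two
      rw [row_even hn L hrow he]
      exact Nat.prime_two
    · have hk1 := pw hn hp hp2 hk hab hexp htr hcard hs hc (hNm _ (hmem i0 j0))
      rw [hk, hk1, pow_one]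
      exact hp
  refine cyc hprime hab htr hcard L hrow fun i j => ?_
  by_cases h : i = j
  · rw [h, inv_mul_cancel]
    exact one_mem N
  · exact in_N hprime hab htr hcard (hrow i j h).1 (hrow i j h).2 (hNm _ (hmem i j))

end Pool.MP_a7cd38_co.RG
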