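import Pool.Agent.H.MP_a7cd38_co.RG.Fro

/-!
# MP_a7cd38_co, RG/Mul: multipliers

For a prime `q` which does not divide `n` the map `t ↦ q t` is injective, so `#{t ∈ T | q t = z}` is `1` if `z` is in the
image of `T` and `0` otherwise: `iv_frob` gives the case `m = q`. General `m`: induction on the prime factors (`m = 1` is clear,
`m = 0` only if `n = 1`, then everything is trivial since `ZMod 1` has one element; `Nat.recOnMul` or
`induction_on_primes`).
-/

namespace Pool.MP_a7cd38_co.RG

open Finset

variable {n : ℕ} {G : Subgroup (Equiv.Perm (ZMod n))}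

private theorem Mul_prime [NeZero n] (p : ℕ) (hp : p.Prime) (hc : p.Coprime n)
    {T : Finset (ZMod n)} (hT : Iv G fun z => z ∈ T) :
    Iv G fun z => z ∈ T.image fun t => (p : ZMod n) * t := by
  have _ := Fact.mk hp
  have h1 := iv_frob p hT
  have hu : IsUnit (p : ZMod n) := (ZMod.isUnit_iff_coprime p n).2 hc
  have h2 : ∀ z, (z ∈ T.image fun t => (p : ZMod n) * t) ↔
      ((#{t ∈ T | (p : ZMod n) * t = z} : ℕ) : ZMod p) ≠ 0 := by
    intro z
    by_cases hz : z ∈ T.image fun t => (p : ZMod n) * t
    · obtain ⟨t, ht, h0⟩ := mem_image.1 hz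
      have h3 : ({t' ∈ T | (p : ZMod n) * t' = z} : Finset (ZMod n)) = {t} := by
        ext t'
        rw [mem_filter, mem_singleton]
        constructor
        · rintro ⟨-, h4⟩
          exact hu.mul_left_cancel (h4.trans h0.symm)
        · rintro rfl
          exact ⟨ht, h0⟩
      rw [h3, card_singleton, Nat.cast_one]
      exact iff_of_true hz one_ne_zero
    · have h3 : ({t' ∈ T | (p : ZMod n) * t' = z} : Finset (ZMod n)) = ∅ := by
        rw [filter_eq_empty_iff]
        intro t' ht' h4
        exact hz (mem_image.2 ⟨t', ht', h4⟩)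
      rw [h3, card_empty, Nat.cast_zero]
      exact iff_of_false hz fun h => h rfl
  intro g hg x y
  have h3 := h1 g hg x y
  change ((#{t ∈ T | (p : ZMod n) * t = g x - g y} : ℕ) : ZMod p) =
    ((#{t ∈ T | (p : ZMod n) * t = x - y} : ℕ) : ZMod p) at h3
  change (g x - g y ∈ T.image fun t => (p : ZMod n) * t) = (x - y ∈ T.image fun t => (p : ZMod n) * t)
  rw [eq_iff_iff, h2, h2, h3]

theorem iv_mul [NeZero n] (m : ℕ) (hm : m.Coprime n) {T : Finset (ZMod n)}
    (hT : Iv G fun z => z ∈ T) : Iv G fun z => z ∈ T.image fun t => (m : ZMod n) * t := by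
  induction m using induction_on_primes with
  | zero =>
    have hn : n = 1 := Nat.coprime_zero_left n |>.1 hm
    subst hn
    intro g _ x y
    exact congrArg _ (Subsingleton.elim _ _)
  | one =>
    have h1 : (T.image fun t => ((1 : ℕ) : ZMod n) * t) = T := by
      simp only [Nat.cast_one, one_mul, image_id']
    rw [h1]
    exact hT
  | prime_mul p a hp ih =>
    have h1 := Mul_prime p hp (Nat.Coprime.coprime_mul_right hm)
      (ih (Nat.Coprime.coprime_mul_left hm))
    rw [image_image] at h1
    have h2 : ((fun t => (p : ZMod n) * t) ∘ fun t => (a : ZMod n) * t) =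
        fun t => ((p * a : ℕ) : ZMod n) * t := by
      funext t
      rw [Function.comp_apply, Nat.cast_mul, mul_assoc]
    rw [h2] at h1
    exact h1

end Pool.MP_a7cd38_co.RG
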