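import Pool.Agent.H.MP_a7cd38_co.RG.Cst

/-!
# MP_a7cd38_co, RG/Orb: the orbits of the stabilizer of `0`

`ob G x` = the orbit of `x` under the stabilizer of `0`; `Ker p` = the elements `y` with `p y = 0`.
* `ob_meets`: otherwise `ob G x` is invariant under the translation by an element `y ≠ 0` of `Ker p` (`cst`), so it is
  everything (`pr_stab`), but `0` is not in it.
* `ob_not_sub`: otherwise `pr_gen`.
-/

namespace Pool.MP_a7cd38_co.RG

open Finset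

variable {n : ℕ} {G : Subgroup (Equiv.Perm (ZMod n))}

open Classical in
/-- The orbit. -/
noncomputable def ob [NeZero n] (G : Subgroup (Equiv.Perm (ZMod n))) (x : ZMod n) :
    Finset (ZMod n) :=
  {z | ∃ g ∈ G, g 0 = 0 ∧ g x = z}

/-- The elements `y` with `p y = 0`. -/
def Ker (n : ℕ) [NeZero n] (p : ℕ) : Finset (ZMod n) := {y | (p : ZMod n) * y = 0}

theorem mem_ob [NeZero n] {x z : ZMod n} : z ∈ ob G x ↔ ∃ g ∈ G, g 0 = 0 ∧ g x = z := by
  classical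
  simp [ob]

theorem mem_Ker [NeZero n] {p : ℕ} {y : ZMod n} : y ∈ Ker n p ↔ (p : ZMod n) * y = 0 := by
  simp [Ker]

theorem ob_self [NeZero n] (x : ZMod n) : x ∈ ob G x :=
  mem_ob.2 ⟨1, G.one_mem, rfl, rfl⟩

theorem ob_eq [NeZero n] {x z : ZMod n} (h : z ∈ ob G x) : ob G z = ob G x := by
  obtain ⟨g, hg, h0, hx⟩ := mem_ob.1 h
  ext w
  rw [mem_ob, mem_ob]
  constructor
  · rintro ⟨k, hk, k0, kz⟩
    refine ⟨k * g, G.mul_mem hk hg, ?_, ?_⟩
    · rw [Equiv.Perm.mul_apply, h0, k0]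
    · rw [Equiv.Perm.mul_apply, hx, kz]
  · rintro ⟨k, hk, k0, kx⟩
    refine ⟨k * g⁻¹, G.mul_mem hk (G.inv_mem hg), ?_, ?_⟩
    · rw [Equiv.Perm.mul_apply, Equiv.Perm.inv_eq_iff_eq.2 h0.symm, k0]
    · rw [Equiv.Perm.mul_apply, Equiv.Perm.inv_eq_iff_eq.2 hx.symm, kx]

theorem ob_iv [NeZero n] (hT : Tr G) (x : ZMod n) : Iv G fun z => z ∈ ob G x := by
  have h : (fun z => z ∈ ob G x) = fun z => ∃ g ∈ G, g 0 = 0 ∧ g x = z :=
    funext fun z => propext mem_ob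
  rw [h]
  exact iv_orb hT x

theorem ob_ne [NeZero n] {x z : ZMod n} (hx : x ≠ 0) (h : z ∈ ob G x) : z ≠ 0 := by
  obtain ⟨g, -, h0, hz⟩ := mem_ob.1 h
  intro h1
  apply hx
  apply g.injective
  rw [hz, h0, h1]

theorem ob_meets [NeZero n] (hP : Pr G) (hT : Tr G) {p : ℕ} (hp : p.Prime) (hpn : p ∣ n)
    {x : ZMod n} (hx : x ≠ 0) : ∃ y ∈ ob G x, y ∈ Ker n p := by
  by_contra hcon
  push Not at hcon
  have hcard := card_ker (n := n) hp hpn
  have h1 : 1 < #{y : ZMod n | (p : ZMod n) * y = 0} := by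
    rw [hcard]
    exact hp.one_lt
  obtain ⟨y, hy, hy0⟩ := Finset.exists_mem_ne h1 0
  have hy1 : (p : ZMod n) * y = 0 := (Finset.mem_filter.1 hy).2
  have huniv := pr_stab hP (ob_iv hT x) ⟨x, ob_self x⟩ hy0 fun t ht =>
    cst hP hp hpn (ob_iv hT x) ht (fun h => hcon t ht (mem_Ker.2 h)) hy1
  have h0 : (0 : ZMod n) ∈ ob G x := by
    rw [huniv]
    exact Finset.mem_univ _
  exact ob_ne hx h0 rfl

theorem ob_not_sub [NeZero n] (hP : Pr G) (hT : Tr G) {p : ℕ} (hp : p.Prime) (hpn : p ∣ n)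
    (hne : p ≠ n) {x : ZMod n} (hx : x ≠ 0) : ∃ y ∈ ob G x, y ∉ Ker n p := by
  by_contra hcon
  push Not at hcon
  obtain ⟨H, hH⟩ : ∃ H : AddSubgroup (ZMod n), H = (AddMonoidHom.mulLeft (p : ZMod n)).ker :=
    ⟨_, rfl⟩
  have hmem : ∀ y : ZMod n, y ∈ H ↔ (p : ZMod n) * y = 0 := by
    intro y
    rw [hH, AddMonoidHom.mem_ker]
    rfl
  have htop : H ≠ ⊤ := by
    intro h
    have h1 : (1 : ZMod n) ∈ H := by
      rw [h]
      exact AddSubgroup.mem_top _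
    rw [hmem, mul_one, ZMod.natCast_eq_zero_iff] at h1
    exact hne (Nat.dvd_antisymm hpn h1)
  exact hx (pr_gen hP (T := {z | z ∈ ob G x}) (ob_iv hT x) H htop
    (fun y hy => (hmem y).2 (mem_Ker.1 (hcon y hy))) x (ob_self x))

end Pool.MP_a7cd38_co.RG
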