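import Pool.Agent.H.MP_a7cd38_co.RG.Mul
import Pool.Agent.H.MP_a7cd38_co.RG.Orb

/-!
# MP_a7cd38_co, RG/Orc: all orbits have the same size

* `exists_unit`: `x' = j x` with `j` prime to `p` (`Ker p` has prime order `p`, `card_ker`; the multiples of `x` are `p` elements of it), and a number `m` with `m ≡ j` modulo `p` and
  prime to `n`: Chinese remainder theorem, or `ZMod.unitsMap_surjective`.
* `ob_card`: for `x`, `x'` in `Ker p`, not `0`, let `x' = m x`; the image of `ob G x` under multiplication by `m` is invariant (`iv_mul`, `ob_iv`) and contains `x'`, so it contains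
  `ob G x'` (`iv_const`, `mem_ob`): both numbers for `x'` are at most those for `x`; by symmetry they are equal. For general `x` use `ob_meets`, `ob_eq`: `ob G x = ob G y` with
  `y ∈ Ker p`, `y ≠ 0`.
-/

namespace Pool.MP_a7cd38_co.RG

open Finset

variable {n : ℕ} {G : Subgroup (Equiv.Perm (ZMod n))}

private theorem Orc_rep [NeZero n] {p k : ℕ} (hp : 0 < p) (hk : n = p * k) {x : ZMod n}
    (hx : x ∈ Ker n p) (h0 : x ≠ 0) : ∃ a : ℕ, ((k * a : ℕ) : ZMod n) = x ∧ ¬ p ∣ a := by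
  rw [mem_Ker] at hx
  have h1 : ((p * x.val : ℕ) : ZMod n) = 0 := by
    rw [Nat.cast_mul, ZMod.natCast_zmod_val]
    exact hx
  rw [ZMod.natCast_eq_zero_iff] at h1
  have h2 : p * k ∣ p * x.val := by
    rw [← hk]
    exact h1
  obtain ⟨a, ha⟩ := Nat.dvd_of_mul_dvd_mul_left hp h2
  have h3 : ((k * a : ℕ) : ZMod n) = x := by
    rw [← ha, ZMod.natCast_zmod_val]
  refine ⟨a, h3, fun h4 => h0 ?_⟩
  obtain ⟨c, hc⟩ := h4
  rw [← h3, ZMod.natCast_eq_zero_iff]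
  refine ⟨c, ?_⟩
  rw [hk, hc]
  ring

theorem exists_unit [NeZero n] {p : ℕ} (hp : p.Prime) (hpn : p ∣ n) {x x' : ZMod n}
    (hx : x ∈ Ker n p) (hx' : x' ∈ Ker n p) (h0 : x ≠ 0) (h0' : x' ≠ 0) :
    ∃ m : ℕ, m.Coprime n ∧ x' = (m : ZMod n) * x := by
  obtain ⟨k, hk⟩ := hpn
  obtain ⟨a, ha, hpa⟩ := Orc_rep hp.pos hk hx h0
  obtain ⟨b, hb, hpb⟩ := Orc_rep hp.pos hk hx' h0'
  haveI : Fact p.Prime := ⟨hp⟩
  have ha0 : ((a : ℕ) : ZMod p) ≠ 0 := by
    rw [Ne, ZMod.natCast_eq_zero_iff]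
    exact hpa
  have hb0 : ((b : ℕ) : ZMod p) ≠ 0 := by
    rw [Ne, ZMod.natCast_eq_zero_iff]
    exact hpb
  have hpn' : p ∣ n := ⟨k, hk⟩
  obtain ⟨u, hu⟩ := ZMod.unitsMap_surjective hpn' (Units.mk0 _ (div_ne_zero hb0 ha0))
  have hu2 : (((u : ZMod n).val : ℕ) : ZMod p) = (b : ZMod p) / (a : ZMod p) := by
    have h1 := congrArg (fun w : (ZMod p)ˣ => (w : ZMod p)) hu
    simp only [ZMod.unitsMap_def, Units.coe_map, Units.val_mk0] at h1
    rw [← h1, ← ZMod.cast_eq_val]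
    rfl
  refine ⟨(u : ZMod n).val, ZMod.val_coe_unit_coprime u, ?_⟩
  have h2 : (u : ZMod n).val * a ≡ b [MOD p] := by
    rw [← ZMod.natCast_eq_natCast_iff, Nat.cast_mul, hu2, div_mul_cancel₀ _ ha0]
  have h3 : k * ((u : ZMod n).val * a) ≡ k * b [MOD k * p] := Nat.ModEq.mul_left' k h2
  have h4 : k * p = n := by
    rw [hk, mul_comm]
  rw [h4, ← ZMod.natCast_eq_natCast_iff] at h3
  rw [← ha, ← hb, ← h3]
  push_cast
  ring

private theorem Orc_le [NeZero n] (hT : Tr G) {p : ℕ} (hp : p.Prime) (hpn : p ∣ n)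
    {x x' : ZMod n} (hx : x ∈ Ker n p) (hx' : x' ∈ Ker n p) (h0 : x ≠ 0) (h0' : x' ≠ 0) :
    #(ob G x') ≤ #(ob G x) ∧ #(ob G x' ∩ Ker n p) ≤ #(ob G x ∩ Ker n p) := by
  obtain ⟨m, hm, hmx⟩ := exists_unit hp hpn hx hx' h0 h0'
  have hIv := iv_mul m hm (ob_iv hT x)
  have hmem : x' ∈ (ob G x).image fun t => (m : ZMod n) * t :=
    mem_image.2 ⟨x, ob_self x, hmx.symm⟩
  have hsub : ob G x' ⊆ (ob G x).image fun t => (m : ZMod n) * t := by
    intro z hz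
    obtain ⟨g, hg, hg0, hgx⟩ := mem_ob.1 hz
    have h1 := iv_const hIv hg hg0 x'
    rw [hgx] at h1
    exact h1.mpr hmem
  refine ⟨(card_le_card hsub).trans card_image_le, ?_⟩
  have hsub2 : ob G x' ∩ Ker n p ⊆ (ob G x ∩ Ker n p).image fun t => (m : ZMod n) * t := by
    intro z hz
    rw [mem_inter] at hz
    obtain ⟨t, ht, htz⟩ := mem_image.1 (hsub hz.1)
    refine mem_image.2 ⟨t, mem_inter.2 ⟨ht, ?_⟩, htz⟩
    have h2 := mem_Ker.1 hz.2
    rw [mem_Ker]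
    have h3 : (m : ZMod n) * ((p : ZMod n) * t) = 0 := by
      rw [← h2, ← htz]
      ring
    have h4 : IsUnit (m : ZMod n) := by
      rw [← ZMod.coe_unitOfCoprime m hm]
      exact Units.isUnit _
    exact (h4.mul_right_eq_zero).1 h3
  exact (card_le_card hsub2).trans card_image_le

theorem ob_card [NeZero n] (hP : Pr G) (hT : Tr G) {p : ℕ} (hp : p.Prime) (hpn : p ∣ n)
    {x x' : ZMod n} (hx : x ≠ 0) (hx' : x' ≠ 0) :
    #(ob G x) = #(ob G x') ∧ #(ob G x ∩ Ker n p) = #(ob G x' ∩ Ker n p) := by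
  obtain ⟨y, hy, hyK⟩ := ob_meets hP hT hp hpn hx
  obtain ⟨y', hy', hyK'⟩ := ob_meets hP hT hp hpn hx'
  have h0 := ob_ne hx hy
  have h0' := ob_ne hx' hy'
  rw [← ob_eq hy, ← ob_eq hy']
  have h1 := Orc_le hT hp hpn hyK hyK' h0 h0'
  have h2 := Orc_le hT hp hpn hyK' hyK h0' h0
  exact ⟨le_antisymm h2.1 h1.1, le_antisymm h2.2 h1.2⟩

end Pool.MP_a7cd38_co.RG
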