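import Pool.Agent.H.MP_a7cd38_co.RG.Df

/-!
# MP_a7cd38_co, RG/Reg: abelian normal subgroups of primitive groups

`Nm R N`: `N` is normalized by `R`.
* `nm_trans`: the orbits of `N` are blocks of `R`; an orbit with two elements exists because `N ≠ ⊥`, it is everything.
* `nm_free`: if `x ∈ N` fixes `a` then it fixes all `y a`, `y ∈ N`.
* `nm_card`: `y ↦ y a` is a bijection of `N` and `Fin n`.
* `nm_exp`: let `p` be a prime divisor of `n = #N`. The elements of `N` with `x ^ p = 1` are a subgroup normalized by `R`, not trivial (Cauchy, `exists_prime_orderOf_dvd_card`), so transitive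
  (`nm_trans`), so it has `n` elements and is `N`. So `N` is a `p`-group (`IsPGroup.iff_card`).
-/

namespace Pool.MP_a7cd38_co.RG

variable {n : ℕ}

private theorem Reg_inv (y : Equiv.Perm (Fin n)) (c : Fin n) : y⁻¹ (y c) = c :=
  y.symm_apply_apply c

/-- `N` is normalized by `R`. -/
def Nm (R N : Subgroup (Equiv.Perm (Fin n))) : Prop := ∀ g ∈ R, ∀ x ∈ N, g * x * g⁻¹ ∈ N

theorem nm_trans {R N : Subgroup (Equiv.Perm (Fin n))} (hP : Pr R) (hN : Nm R N) (h1 : N ≠ ⊥)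
    (a b : Fin n) : ∃ x ∈ N, x a = b := by
  obtain ⟨x0, hx0, hx1⟩ : ∃ x ∈ N, x ≠ 1 := by
    by_contra hc
    push Not at hc
    exact h1 ((Subgroup.eq_bot_iff_forall N).mpr hc)
  obtain ⟨c, hc⟩ : ∃ c, x0 c ≠ c := by
    by_contra hc
    push Not at hc
    exact hx1 (Equiv.ext hc)
  have hblk : ∀ g ∈ R, g '' {z | ∃ x ∈ N, x c = z} = {z | ∃ x ∈ N, x c = z} ∨
      Disjoint (g '' {z | ∃ x ∈ N, x c = z}) {z | ∃ x ∈ N, x c = z} := by
    intro g hg
    have himg : ∀ w, w ∈ g '' {z | ∃ x ∈ N, x c = z} ↔ ∃ x ∈ N, x (g c) = w := by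
      intro w
      constructor
      · rintro ⟨_, ⟨x, hx, rfl⟩, rfl⟩
        refine ⟨g * x * g⁻¹, hN g hg x hx, ?_⟩
        simp [Equiv.Perm.mul_apply]
      · rintro ⟨x, hx, rfl⟩
        refine ⟨(g⁻¹ * x * g) c, ⟨g⁻¹ * x * g, ?_, rfl⟩, ?_⟩
        · have h2 := hN g⁻¹ (R.inv_mem hg) x hx
          rwa [inv_inv] at h2
        · simp [Equiv.Perm.mul_apply]
    by_cases hd : Disjoint (g '' {z | ∃ x ∈ N, x c = z}) {z | ∃ x ∈ N, x c = z}
    · exact Or.inr hd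
    · left
      obtain ⟨w, hw1, x, hx, hxw⟩ := Set.not_disjoint_iff.mp hd
      obtain ⟨y, hy, hyw⟩ := (himg w).mp hw1
      have h3 : g c = (y⁻¹ * x) c := by
        rw [Equiv.Perm.mul_apply, hxw, ← hyw, Reg_inv]
      ext v
      rw [himg v]
      constructor
      · rintro ⟨z, hz, rfl⟩
        refine ⟨z * (y⁻¹ * x), N.mul_mem hz (N.mul_mem (N.inv_mem hy) hx), ?_⟩
        rw [h3, Equiv.Perm.mul_apply]
      · rintro ⟨z, hz, rfl⟩
        refine ⟨z * (y⁻¹ * x)⁻¹, N.mul_mem hz (N.inv_mem (N.mul_mem (N.inv_mem hy) hx)), ?_⟩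
        rw [h3, Equiv.Perm.mul_apply, Reg_inv]
  have huniv : {z | ∃ x ∈ N, x c = z} = Set.univ := by
    rcases hP _ hblk with h2 | h2
    · exact absurd (h2 ⟨x0, hx0, rfl⟩ ⟨1, N.one_mem, rfl⟩) hc
    · exact h2
  obtain ⟨y, hy, hya⟩ : a ∈ {z | ∃ x ∈ N, x c = z} := by rw [huniv]; exact Set.mem_univ a
  obtain ⟨z, hz, hzb⟩ : b ∈ {z | ∃ x ∈ N, x c = z} := by rw [huniv]; exact Set.mem_univ b
  refine ⟨z * y⁻¹, N.mul_mem hz (N.inv_mem hy), ?_⟩
  rw [← hya, Equiv.Perm.mul_apply, Reg_inv, hzb]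

theorem nm_free {R N : Subgroup (Equiv.Perm (Fin n))} (hP : Pr R) (hN : Nm R N) (h1 : N ≠ ⊥)
    (hab : ∀ x ∈ N, ∀ y ∈ N, x * y = y * x) {x : Equiv.Perm (Fin n)} (hx : x ∈ N) {a : Fin n}
    (h : x a = a) : x = 1 := by
  refine Equiv.ext fun b => ?_
  obtain ⟨y, hy, rfl⟩ := nm_trans hP hN h1 a b
  have h2 : x (y a) = (y * x) a := by
    rw [← hab x hx y hy]
    rfl
  rw [h2, Equiv.Perm.mul_apply, h]
  rfl

theorem nm_card {R N : Subgroup (Equiv.Perm (Fin n))} (hn : 2 ≤ n) (hP : Pr R) (hN : Nm R N)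
    (h1 : N ≠ ⊥) (hab : ∀ x ∈ N, ∀ y ∈ N, x * y = y * x) : Nat.card N = n := by
  obtain ⟨a⟩ : Nonempty (Fin n) := ⟨⟨0, by omega⟩⟩
  have hbij : Function.Bijective (fun y : N => (y : Equiv.Perm (Fin n)) a) := by
    constructor
    · intro y z hyz
      have hyz' : (y : Equiv.Perm (Fin n)) a = (z : Equiv.Perm (Fin n)) a := hyz
      have h2 : ((z : Equiv.Perm (Fin n))⁻¹ * (y : Equiv.Perm (Fin n))) a = a := by
        rw [Equiv.Perm.mul_apply, hyz', Reg_inv]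
      have h3 := nm_free hP hN h1 hab (N.mul_mem (N.inv_mem z.2) y.2) h2
      exact Subtype.ext (inv_mul_eq_one.mp h3).symm
    · intro b
      obtain ⟨x, hx, hxb⟩ := nm_trans hP hN h1 a b
      exact ⟨⟨x, hx⟩, hxb⟩
  rw [Nat.card_eq_of_bijective _ hbij, Nat.card_fin]

theorem nm_exp {R N : Subgroup (Equiv.Perm (Fin n))} (hn : 2 ≤ n) (hP : Pr R) (hN : Nm R N)
    (h1 : N ≠ ⊥) (hab : ∀ x ∈ N, ∀ y ∈ N, x * y = y * x) :
    ∃ p k : ℕ, p.Prime ∧ n = p ^ k ∧ ∀ x ∈ N, x ^ p = 1 := by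
  obtain ⟨p, hp⟩ : ∃ p : ℕ, p = n.minFac := ⟨_, rfl⟩
  have hpp : p.Prime := by
    rw [hp]
    exact Nat.minFac_prime (by omega)
  have hpn : p ∣ n := by
    rw [hp]
    exact Nat.minFac_dvd n
  have hcard := nm_card hn hP hN h1 hab
  have : Fact p.Prime := ⟨hpp⟩
  let M : Subgroup (Equiv.Perm (Fin n)) :=
    { carrier := {x | x ∈ N ∧ x ^ p = 1}
      mul_mem' := by
        rintro x y ⟨hx, hxp⟩ ⟨hy, hyp⟩
        refine ⟨N.mul_mem hx hy, ?_⟩
        have hc : Commute x y := hab x hx y hy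
        rw [hc.mul_pow, hxp, hyp, one_mul]
      one_mem' := ⟨N.one_mem, one_pow p⟩
      inv_mem' := by
        rintro x ⟨hx, hxp⟩
        exact ⟨N.inv_mem hx, by rw [inv_pow, hxp, inv_one]⟩ }
  have hMN : M ≤ N := fun x hx => hx.1
  have hMR : Nm R M := by
    intro g hg x hx
    refine ⟨hN g hg x hx.1, ?_⟩
    rw [conj_pow, hx.2, mul_one, mul_inv_cancel]
  have hM1 : M ≠ ⊥ := by
    obtain ⟨x, hx⟩ := exists_prime_orderOf_dvd_card' (G := N) p (by rw [hcard]; exact hpn)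
    intro hbot
    have h2 : (x : Equiv.Perm (Fin n)) ∈ M := by
      refine ⟨x.2, ?_⟩
      have h3 : x ^ p = 1 := by
        rw [← hx]
        exact pow_orderOf_eq_one x
      exact congrArg Subtype.val h3
    rw [hbot, Subgroup.mem_bot] at h2
    have h3 : x = 1 := Subtype.ext h2
    rw [h3, orderOf_one] at hx
    exact hpp.one_lt.ne hx
  have hMc := nm_card hn hP hMR hM1 (fun x hx y hy => hab x (hMN hx) y (hMN hy))
  have hMeq : M = N := Subgroup.eq_of_le_of_card_ge hMN (by rw [hMc, hcard])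
  have hpow : ∀ x ∈ N, x ^ p = 1 := by
    intro x hx
    rw [← hMeq] at hx
    exact hx.2
  have hpg : IsPGroup p N := by
    intro x
    refine ⟨1, ?_⟩
    rw [pow_one]
    exact Subtype.ext (hpow x x.2)
  obtain ⟨k, hk⟩ := IsPGroup.iff_card.mp hpg
  exact ⟨p, k, hpp, by rw [← hk, hcard], hpow⟩

end Pool.MP_a7cd38_co.RG
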