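import Pool.Agent.H.MP_a7cd38_co.RG.Cow

/-!
# MP_a7cd38_co, RG/Tra: Schur's theorem for groups with a full cycle

Let `e : ZMod n ≃ Fin n` with `e (x + 1) = s (e x)` (`e x = s ^ x.val 0`; a full cycle: `Equiv.Perm.IsCycle`, `support.card = n`), and let
`G` be the group of the `e⁻¹ g e`, `g ∈ R`. It contains the translations (powers of the translation by `1`), its blocks are
trivial. Apply `dbl_zmod`.
-/

namespace Pool.MP_a7cd38_co.RG

/-- the columns as integers modulo `n` -/
theorem exists_zmod {n : ℕ} (hn : 2 ≤ n) {s : Equiv.Perm (Fin n)} (hs : s.IsCycle)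
    (hc : s.support.card = n) : ∃ e : ZMod n ≃ Fin n, ∀ x, e (x + 1) = s (e x) := by
  have hne : NeZero n := ⟨by omega⟩
  have hsup : s.support = Finset.univ := by
    apply Finset.eq_univ_of_card
    rw [hc, Fintype.card_fin]
  have hmov : ∀ y : Fin n, s y ≠ y := fun y =>
    Equiv.Perm.mem_support.1 (by rw [hsup]; exact Finset.mem_univ y)
  have hord : orderOf s = n := by rw [hs.orderOf, hc]
  have hmod : ∀ k : ℕ, s ^ (k % n) = s ^ k := by
    intro k
    have h1 := pow_mod_orderOf s k
    rwa [hord] at h1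
  have hsurj : Function.Surjective (fun x : ZMod n => (s ^ x.val) (0 : Fin n)) := by
    intro y
    obtain ⟨i, hi⟩ := hs.exists_pow_eq (hmov 0) (hmov y)
    refine ⟨(i : ZMod n), ?_⟩
    show (s ^ ((i : ZMod n)).val) (0 : Fin n) = y
    rw [ZMod.val_natCast, hmod, hi]
  have hbij : Function.Bijective (fun x : ZMod n => (s ^ x.val) (0 : Fin n)) := by
    refine (Fintype.bijective_iff_surjective_and_card _).2 ⟨hsurj, ?_⟩
    rw [ZMod.card, Fintype.card_fin]
  refine ⟨Equiv.ofBijective _ hbij, fun x => ?_⟩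
  show (s ^ (x + 1).val) (0 : Fin n) = s ((s ^ x.val) (0 : Fin n))
  have h1 : (1 : ZMod n).val = 1 % n := by
    have := ZMod.val_natCast (n := n) 1
    rwa [Nat.cast_one] at this
  rw [ZMod.val_add, h1, Nat.add_mod_mod, hmod, add_comm, pow_add, pow_one, Equiv.Perm.mul_apply]

theorem schur {n : ℕ} (hn : 2 ≤ n) (hnp : ¬ n.Prime) {R : Subgroup (Equiv.Perm (Fin n))}
    (hP : Pr R) {s : Equiv.Perm (Fin n)} (hsR : s ∈ R) (hs : s.IsCycle)
    (hc : s.support.card = n) : Dbl R := by
  have hne : NeZero n := ⟨by omega⟩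
  obtain ⟨e, he⟩ := exists_zmod hn hs hc
  obtain ⟨G, hG⟩ : ∃ G : Subgroup (Equiv.Perm (ZMod n)),
      ∀ g, g ∈ G ↔ e.permCongr g ∈ R := by
    refine ⟨R.comap e.permCongrHom.toMonoidHom, fun g => ?_⟩
    exact Subgroup.mem_comap
  have happ : ∀ (g : Equiv.Perm (ZMod n)) (y : Fin n), e.permCongr g y = e (g (e.symm y)) :=
    fun g y => rfl
  have hG' : ∀ g' ∈ R, e.symm.permCongr g' ∈ G := by
    intro g' hg'
    rw [hG]
    have h1 : e.permCongr (e.symm.permCongr g') = g' := by
      ext y
      simp
    rw [h1]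
    exact hg'
  have hT1 : Equiv.addRight (1 : ZMod n) ∈ G := by
    rw [hG]
    have h1 : e.permCongr (Equiv.addRight (1 : ZMod n)) = s := by
      apply Equiv.ext
      intro y
      rw [happ]
      show e (e.symm y + 1) = s y
      rw [he, Equiv.apply_symm_apply]
    rw [h1]
    exact hsR
  have hTk : ∀ k : ℕ, Equiv.addRight ((k : ℕ) : ZMod n) ∈ G := by
    intro k
    induction k with
    | zero =>
      have h1 : Equiv.addRight (((0 : ℕ) : ZMod n)) = 1 := by
        apply Equiv.ext
        intro x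
        show x + ((0 : ℕ) : ZMod n) = x
        rw [Nat.cast_zero, add_zero]
      rw [h1]
      exact G.one_mem
    | succ k ih =>
      have h1 : Equiv.addRight (((k + 1 : ℕ) : ZMod n)) =
          Equiv.addRight (1 : ZMod n) * Equiv.addRight ((k : ℕ) : ZMod n) := by
        apply Equiv.ext
        intro x
        show x + ((k + 1 : ℕ) : ZMod n) = (x + ((k : ℕ) : ZMod n)) + 1
        rw [Nat.cast_add, Nat.cast_one, add_assoc]
      rw [h1]
      exact G.mul_mem hT1 ih
  have hT : Tr G := by
    intro c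
    have h1 := hTk c.val
    rwa [ZMod.natCast_zmod_val] at h1
  have hPG : Pr G := by
    intro B hB
    have h1 : ∀ g' ∈ R, g' '' (e '' B) = e '' B ∨ Disjoint (g' '' (e '' B)) (e '' B) := by
      intro g' hg'
      have h2 : g' '' (e '' B) = e '' ((e.symm.permCongr g') '' B) := by
        rw [Set.image_image, Set.image_image]
        refine Set.image_congr fun x _ => ?_
        show g' (e x) = e (e.symm (g' (e.symm.symm x)))
        rw [Equiv.apply_symm_apply]
        rfl
      rw [h2]
      rcases hB _ (hG' g' hg') with h3 | h3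
      · left
        rw [h3]
      · right
        exact (Set.disjoint_image_iff e.injective).2 h3
    rcases hP (e '' B) h1 with h2 | h2
    · left
      intro x hx y hy
      exact e.injective (h2 (Set.mem_image_of_mem e hx) (Set.mem_image_of_mem e hy))
    · right
      rw [Set.eq_univ_iff_forall] at h2 ⊢
      intro x
      obtain ⟨y, hy, hyx⟩ := h2 (e x)
      rw [← e.injective hyx]
      exact hy
  have key := dbl_zmod hPG hT hnp
  intro a b c d hab hcd
  obtain ⟨g, hg, h1, h2⟩ := key (e.symm a) (e.symm b) (e.symm c) (e.symm d)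
    (fun h => hab (e.symm.injective h)) (fun h => hcd (e.symm.injective h))
  refine ⟨e.permCongr g, (hG g).1 hg, ?_, ?_⟩
  · rw [happ, h1, Equiv.apply_symm_apply]
  · rw [happ, h2, Equiv.apply_symm_apply]

end Pool.MP_a7cd38_co.RG
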